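import Pool.Agent.Lib.MP_eeed5c_co_T.Fin3
import Mathlib

/-!
# Definitions (graphs close to a union of complete bipartite graphs)

A map `c : V → Fin q × Fin 2` attaches to every vertex its block and its side. `KG c` is the union of
the complete bipartite graphs between the two sides of the blocks. `Xs G c` are the edges of `KG c`
missing in `G`, `Ys G c` the additional edges of `G`. `mF H W j` is the number of matchings of `H` with
`j` edges which do not cover any vertex of `W`.
-/

set_option autoImplicit false

namespace Pool.Agent.Lib.MP_eeed5c_coX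

open Finset Pool.Agent.Lib.MP_eeed5c_co Pool.Agent.Lib.MP_eeed5c_coT

/-- The matching polynomial of `K_{a,b}`. -/
noncomputable def Kab (a b : ℕ) : Polynomial ℝ :=
  ∑ j ∈ range (a + 1), Polynomial.monomial j
    ((a.choose j : ℝ) * (b.choose j : ℝ) * (j.factorial : ℝ))

/-- The polynomial `r K - X K'` with the coefficients `(r - j) ell r j`. -/
noncomputable def HP (r : ℕ) : Polynomial ℝ :=
  ∑ j ∈ range (r + 1), Polynomial.monomial j (((r : ℝ) - j) * ell r j)

/-- The union of complete bipartite graphs. -/
def KG {V : Type*} {q : ℕ} (c : V → Fin q × Fin 2) : SimpleGraph V where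
  Adj u v := (c u).1 = (c v).1 ∧ (c u).2 ≠ (c v).2
  symm := ⟨fun _ _ h => ⟨h.1.symm, h.2.symm⟩⟩
  loopless := ⟨fun _ h => h.2 rfl⟩

section

variable {V : Type*} [Fintype V]

open scoped Classical in
/-- The number of matchings with `j` edges leaving `W` free. -/
noncomputable def mF (H : SimpleGraph V) (W : Finset V) (j : ℕ) : ℝ :=
  (((mats H j).filter fun N => W ⊆ free N).card : ℝ)

open scoped Classical in
/-- The cells have `r` elements. -/
def Cells {q : ℕ} (r : ℕ) (c : V → Fin q × Fin 2) : Prop :=
  ∀ z, (univ.filter fun v => c v = z).card = r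

open scoped Classical in
/-- The number of elements of `W` in the cell `z`. -/
noncomputable def cnt {q : ℕ} (c : V → Fin q × Fin 2) (W : Finset V) (z : Fin q × Fin 2) : ℕ :=
  (W.filter fun v => c v = z).card

open scoped Classical in
/-- The missing edges. -/
noncomputable def Xs {q : ℕ} (G : SimpleGraph V) (c : V → Fin q × Fin 2) : Finset (Sym2 V) :=
  univ.filter fun e => e ∈ (KG c).edgeSet ∧ e ∉ G.edgeSet

open scoped Classical in
/-- The additional edges. -/
noncomputable def Ys {q : ℕ} (G : SimpleGraph V) (c : V → Fin q × Fin 2) : Finset (Sym2 V) :=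
  univ.filter fun e => e ∈ G.edgeSet ∧ e ∉ (KG c).edgeSet

open scoped Classical in
/-- The end points of an edge. -/
noncomputable def ev (e : Sym2 V) : Finset V := univ.filter fun v => v ∈ e

end

end Pool.Agent.Lib.MP_eeed5c_coX
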