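import Pool.Agent.Lib.MP_eeed5c_co_X.XA

/-!
# The union bound

PROOFS. Let `K = KG c`, `H = K ⊔ G`, `X = Xs G c`, `Y = Ys G c`.
* `count_one`: `N ↦ N.erase e` is a bijection from the matchings `N` of `H` with `k+1` edges containing the edge
  `e = s(a,b)` to the matchings with `k` edges leaving `ev e = {a,b}` free.
* `count_two`: for `e ≠ f` the number of matchings of `H` with `k+2` edges containing `e` and `f` is at most
  `mF H (ev e ∪ ev f) k` with `|ev e ∪ ev f| = 4` if `e`, `f` are disjoint (and it is zero if they are not); so it is `≤ B`.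
* `card_XY`: `K` and `G` are `r`-regular, so they have the same number of edges (`∑ degrees`), and `|E(K)| - |X| = |E(K) ∩ E(G)| = |E(G)| - |Y|`.
* `upper_one`: for a matching `N` of `H` with `k+2` edges let `t = |N ∩ X|`. `N` is a matching of `G` iff `t = 0` (`E(H) \ X = E(G)`), and
  `1[t = 0] ≤ 1 - t + t(t-1)/2`. Sum over `N`: `∑_N t = ∑_{e ∈ X} count`, `∑_N t(t-1) = ∑_{e ≠ f in X} count ≤ |X| (|X|-1) B ≤ |X|^2 B`.
* `upper_two`: for a matching `N` of `H` let `t = |N ∩ Y|`. Those with `t = 0` are the matchings of `K` (`E(H) \ Y = E(K)`). Those with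
  `t = 1` correspond to pairs `(y, N \ y)`, `y ∈ Y`, where `N \ y` is a matching of `K` leaving `ev y` free (all of `N \ y` is in `K`).
  Those with `t ≥ 2` are at most `∑_{N} t(t-1)/2 ≤ |Y|^2 B / 2`.
* `union_bound`: combine, with `mF H (ev e) (k+1) ≥ mF K (ev e) (k+1)` (`mF_mono`), `|X| = |Y|`.
-/

set_option autoImplicit false

namespace Pool.Agent.Lib.MP_eeed5c_coX

open Finset Pool.Agent.Lib.MP_eeed5c_co Pool.Agent.Lib.MP_eeed5c_coT

section

variable {V : Type*} [Fintype V]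

theorem XE_mem_ev {e : Sym2 V} {v : V} : v ∈ ev e ↔ v ∈ e := by
  simp [ev]

theorem XE_ev_sub {a b : V} {S : Finset V} : ev s(a, b) ⊆ S ↔ a ∈ S ∧ b ∈ S := by
  constructor
  · intro h
    exact ⟨h (XE_mem_ev.2 (Sym2.mem_mk_left a b)), h (XE_mem_ev.2 (Sym2.mem_mk_right a b))⟩
  · rintro ⟨ha, hb⟩ v hv
    rw [XE_mem_ev, Sym2.mem_iff] at hv
    rcases hv with rfl | rfl
    · exact ha
    · exact hb

theorem XE_card_ev {H : SimpleGraph V} {e : Sym2 V} (he : e ∈ H.edgeSet) : (ev e).card = 2 := by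
  classical
  induction e using Sym2.inductionOn with
  | hf a b =>
    have hab : a ≠ b := (SimpleGraph.mem_edgeSet H).1 he |>.ne
    have h : ev s(a, b) = {a, b} := by
      ext v
      rw [XE_mem_ev, Sym2.mem_iff, Finset.mem_insert, Finset.mem_singleton]
    rw [h, Finset.card_pair hab]

open scoped Classical in
theorem XE_free_erase {H : SimpleGraph V} {k : ℕ} {N : Finset (Sym2 V)} (hN : N ∈ mats H k)
    {e : Sym2 V} (he : e ∈ N) : ev e ⊆ free (N.erase e) := by
  intro v hv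
  rw [XE_mem_ev] at hv
  rw [mem_free]
  intro f hf hvf
  rw [Finset.mem_erase] at hf
  exact hf.1 (edge_unique hN hf.2 he hvf hv)

open scoped Classical in
theorem XE_free_anti {N N' : Finset (Sym2 V)} (h : N ⊆ N') : free N' ⊆ free N := by
  intro v hv
  rw [mem_free] at hv ⊢
  exact fun e he => hv e (h he)

open scoped Classical in
theorem count_one {H : SimpleGraph V} {e : Sym2 V} (he : e ∈ H.edgeSet) (k : ℕ) :
    (((mats H (k + 1)).filter fun N => e ∈ N).card : ℝ) = mF H (ev e) k := by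
  unfold mF
  have h : ((mats H (k + 1)).filter fun N => e ∈ N).card =
      ((mats H k).filter fun N => ev e ⊆ free N).card := by
    refine Finset.card_bij' (fun N _ => N.erase e) (fun N _ => insert e N) ?_ ?_ ?_ ?_
    · intro N hN
      rw [Finset.mem_filter] at hN ⊢
      exact ⟨erase_mem_mats hN.1 hN.2, XE_free_erase hN.1 hN.2⟩
    · intro N hN
      rw [Finset.mem_filter] at hN ⊢
      refine ⟨?_, Finset.mem_insert_self _ _⟩
      induction e using Sym2.inductionOn with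
      | hf a b =>
        have h2 := XE_ev_sub.1 hN.2
        exact insert_mem_mats hN.1 h2.1 h2.2 ((SimpleGraph.mem_edgeSet H).1 he)
    · intro N hN
      rw [Finset.mem_filter] at hN
      exact Finset.insert_erase hN.2
    · intro N hN
      rw [Finset.mem_filter] at hN
      refine Finset.erase_insert ?_
      intro heN
      induction e using Sym2.inductionOn with
      | hf a b =>
        have h2 := XE_ev_sub.1 hN.2
        exact mem_free.1 h2.1 _ heN (Sym2.mem_mk_left a b)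
  rw [h]

open scoped Classical in
theorem count_two {H : SimpleGraph V} {e f : Sym2 V} (hef : e ≠ f) {k : ℕ} {B : ℝ} (hB0 : 0 ≤ B)
    (hB : ∀ W : Finset V, W.card = 4 → mF H W k ≤ B) :
    (((mats H (k + 2)).filter fun N => e ∈ N ∧ f ∈ N).card : ℝ) ≤ B := by
  rcases Finset.eq_empty_or_nonempty ((mats H (k + 2)).filter fun N => e ∈ N ∧ f ∈ N) with h0 | h0
  · rw [h0, Finset.card_empty, Nat.cast_zero]
    exact hB0
  · obtain ⟨M, hM⟩ := h0
    rw [Finset.mem_filter] at hM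
    obtain ⟨hM, heM, hfM⟩ := hM
    have hMm := mem_mats.1 hM
    have hcard : (ev e ∪ ev f).card = 4 := by
      rw [Finset.card_union_of_disjoint, XE_card_ev (hMm.1 heM), XE_card_ev (hMm.1 hfM)]
      rw [Finset.disjoint_left]
      intro v hv hv'
      rw [XE_mem_ev] at hv hv'
      exact hMm.2.2 heM hfM hef v hv hv'
    refine le_trans ?_ (hB _ hcard)
    unfold mF
    refine Nat.cast_le.2 ?_
    refine Finset.card_le_card_of_injOn (fun N => (N.erase e).erase f) ?_ ?_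
    · intro N hN
      rw [Finset.mem_coe, Finset.mem_filter] at hN ⊢
      obtain ⟨hN, heN, hfN⟩ := hN
      have hfe : f ∈ N.erase e := Finset.mem_erase.2 ⟨hef.symm, hfN⟩
      have h1 : N.erase e ∈ mats H (k + 1) := erase_mem_mats hN heN
      refine ⟨erase_mem_mats h1 hfe, ?_⟩
      refine Finset.union_subset ?_ (XE_free_erase h1 hfe)
      exact (XE_free_erase hN heN).trans (XE_free_anti (Finset.erase_subset _ _))
    · intro N hN N' hN' heq
      rw [Finset.mem_coe, Finset.mem_filter] at hN hN'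
      have hfe : f ∈ N.erase e := Finset.mem_erase.2 ⟨hef.symm, hN.2.2⟩
      have hfe' : f ∈ N'.erase e := Finset.mem_erase.2 ⟨hef.symm, hN'.2.2⟩
      have heq' : (N.erase e).erase f = (N'.erase e).erase f := heq
      have h1 : N.erase e = N'.erase e := by
        rw [← Finset.insert_erase hfe, ← Finset.insert_erase hfe', heq']
      rw [← Finset.insert_erase hN.2.1, ← Finset.insert_erase hN'.2.1, h1]

open scoped Classical in
theorem XE_reg_card {G : SimpleGraph V} {r : ℕ} (h : Reg G r) :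
    2 * (univ.filter fun e => e ∈ G.edgeSet).card = r * Fintype.card V := by
  have h1 : (univ.filter fun e => e ∈ G.edgeSet) = G.edgeFinset := by
    ext e
    simp
  rw [h1, ← SimpleGraph.sum_degrees_eq_twice_card_edges]
  have h2 : ∀ v : V, G.degree v = r := by
    intro v
    rw [← h v, ← SimpleGraph.card_neighborFinset_eq_degree]
    congr 1
    ext u
    simp
  rw [Finset.sum_congr rfl fun v _ => h2 v, Finset.sum_const, Finset.card_univ, smul_eq_mul, mul_comm]

theorem XE_reg_KG {q r : ℕ} {c : V → Fin q × Fin 2} (hc : Cells r c) : Reg (KG c) r := by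
  classical
  intro v
  have hkey : ∀ a b : Fin 2, a ≠ b ↔ b = a + 1 := by decide
  rw [← hc ((c v).1, (c v).2 + 1)]
  congr 1
  ext u
  simp only [Finset.mem_filter, Finset.mem_univ, true_and]
  constructor
  · rintro ⟨h1, h2⟩
    exact Prod.ext h1.symm ((hkey _ _).1 h2)
  · intro h
    rw [Prod.ext_iff] at h
    exact ⟨h.1.symm, (hkey _ _).2 h.2⟩

theorem card_XY {q r : ℕ} {c : V → Fin q × Fin 2} {G : SimpleGraph V} (hc : Cells r c)
    (hreg : Reg G r) : (Xs G c).card = (Ys G c).card := by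
  classical
  have h1 := XE_reg_card hreg
  have h2 := XE_reg_card (XE_reg_KG hc)
  set A := univ.filter fun e => e ∈ G.edgeSet with hA
  set B := univ.filter fun e => e ∈ (KG c).edgeSet with hB
  have hX : Xs G c = B \ A := by
    ext e
    simp [Xs, hA, hB]
  have hY : Ys G c = A \ B := by
    ext e
    simp [Ys, hA, hB]
  have h3 := Finset.card_sdiff_add_card_inter B A
  have h4 := Finset.card_sdiff_add_card_inter A B
  rw [Finset.inter_comm] at h4
  rw [hX, hY]
  omega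

open scoped Classical in
/-- The number of elements of `X` in `N`. -/
noncomputable def XE_t (X : Finset (Sym2 V)) (N : Finset (Sym2 V)) : ℝ :=
  ∑ e ∈ X, if e ∈ N then (1 : ℝ) else 0

open scoped Classical in
theorem XE_t_card (X : Finset (Sym2 V)) (N : Finset (Sym2 V)) :
    XE_t X N = ((X.filter fun e => e ∈ N).card : ℝ) := by
  unfold XE_t
  rw [Finset.sum_boole]

open scoped Classical in
theorem XE_single (𝒩 : Finset (Finset (Sym2 V))) (X : Finset (Sym2 V)) :
    ∑ N ∈ 𝒩, XE_t X N = ∑ e ∈ X, ((𝒩.filter fun N => e ∈ N).card : ℝ) := by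
  unfold XE_t
  rw [Finset.sum_comm]
  refine Finset.sum_congr rfl fun e _ => ?_
  rw [Finset.sum_boole]

open scoped Classical in
theorem XE_sq (X : Finset (Sym2 V)) (N : Finset (Sym2 V)) :
    XE_t X N ^ 2 - XE_t X N =
      ∑ e ∈ X, ∑ f ∈ X.erase e, if e ∈ N ∧ f ∈ N then (1 : ℝ) else 0 := by
  have h1 : XE_t X N ^ 2 = ∑ e ∈ X, ∑ f ∈ X, if e ∈ N ∧ f ∈ N then (1 : ℝ) else 0 := by
    unfold XE_t
    rw [pow_two, Finset.sum_mul_sum]
    refine Finset.sum_congr rfl fun e _ => Finset.sum_congr rfl fun f _ => ?_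
    by_cases he : e ∈ N
    · by_cases hf : f ∈ N
      · simp [he, hf]
      · simp [he, hf]
    · simp [he]
  have h2 : ∀ e ∈ X, ∑ f ∈ X, (if e ∈ N ∧ f ∈ N then (1 : ℝ) else 0) =
      (if e ∈ N then (1 : ℝ) else 0) +
        ∑ f ∈ X.erase e, if e ∈ N ∧ f ∈ N then (1 : ℝ) else 0 := by
    intro e he
    rw [← Finset.add_sum_erase X _ he]
    simp
  rw [h1, Finset.sum_congr rfl h2, Finset.sum_add_distrib]
  unfold XE_t
  ring

open scoped Classical in
theorem XE_pairs (𝒩 : Finset (Finset (Sym2 V))) (X : Finset (Sym2 V)) {B : ℝ} (hB0 : 0 ≤ B)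
    (h : ∀ e f : Sym2 V, e ≠ f → ((𝒩.filter fun N => e ∈ N ∧ f ∈ N).card : ℝ) ≤ B) :
    ∑ N ∈ 𝒩, (XE_t X N ^ 2 - XE_t X N) ≤ (X.card : ℝ) ^ 2 * B := by
  rw [Finset.sum_congr rfl fun N _ => XE_sq X N, Finset.sum_comm]
  have h1 : ∀ e ∈ X, ∑ N ∈ 𝒩, ∑ f ∈ X.erase e, (if e ∈ N ∧ f ∈ N then (1 : ℝ) else 0) ≤
      (X.card : ℝ) * B := by
    intro e he
    rw [Finset.sum_comm]
    have h2 : ∀ f ∈ X.erase e, ∑ N ∈ 𝒩, (if e ∈ N ∧ f ∈ N then (1 : ℝ) else 0) ≤ B := by
      intro f hf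
      rw [Finset.sum_boole]
      exact h e f (Finset.ne_of_mem_erase hf).symm
    refine (Finset.sum_le_card_nsmul _ _ _ h2).trans ?_
    rw [nsmul_eq_mul]
    refine mul_le_mul_of_nonneg_right ?_ hB0
    exact_mod_cast Finset.card_le_card (Finset.erase_subset e X)
  refine (Finset.sum_le_card_nsmul _ _ _ h1).trans ?_
  rw [nsmul_eq_mul, pow_two, mul_assoc]

open scoped Classical in
theorem XE_sub {G K : SimpleGraph V} {X : Finset (Sym2 V)} {k : ℕ}
    (hX : ∀ e, e ∈ X ↔ (e ∈ K.edgeSet ∧ e ∉ G.edgeSet)) :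
    (mats (K ⊔ G) k).filter (fun N => XE_t X N = 0) = mats G k := by
  ext N
  rw [Finset.mem_filter, mem_mats, mem_mats, XE_t_card]
  constructor
  · rintro ⟨⟨h1, h2⟩, h3⟩
    refine ⟨?_, h2⟩
    intro e he
    have h4 : X.filter (fun e => e ∈ N) = ∅ := Finset.card_eq_zero.1 (by exact_mod_cast h3)
    by_contra hcon
    have h5 : e ∈ (K ⊔ G).edgeSet := h1 he
    rw [SimpleGraph.edgeSet_sup] at h5
    rcases h5 with h5 | h5
    · have h6 : e ∈ X.filter (fun e => e ∈ N) :=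
        Finset.mem_filter.2 ⟨(hX e).2 ⟨h5, hcon⟩, he⟩
      rw [h4] at h6
      simp at h6
    · exact hcon h5
  · rintro ⟨h1, h2⟩
    refine ⟨⟨h1.trans (SimpleGraph.edgeSet_mono le_sup_right), h2⟩, ?_⟩
    have h4 : X.filter (fun e => e ∈ N) = ∅ := by
      refine Finset.filter_false_of_mem fun e he hcon => ?_
      exact ((hX e).1 he).2 (h1 hcon)
    rw [h4, Finset.card_empty, Nat.cast_zero]

theorem upper_one {q : ℕ} {c : V → Fin q × Fin 2} {G : SimpleGraph V} {k : ℕ} {B : ℝ} (hB0 : 0 ≤ B)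
    (hB : ∀ W : Finset V, W.card = 4 → mF (KG c ⊔ G) W k ≤ B) :
    ((mats G (k + 2)).card : ℝ) ≤ ((mats (KG c ⊔ G) (k + 2)).card : ℝ) -
      ∑ e ∈ Xs G c, mF (KG c ⊔ G) (ev e) (k + 1) + ((Xs G c).card : ℝ) ^ 2 / 2 * B := by
  classical
  have hX : ∀ e, e ∈ Xs G c ↔ (e ∈ (KG c).edgeSet ∧ e ∉ G.edgeSet) := by
    intro e
    simp [Xs]
  have h1 : ((mats G (k + 2)).card : ℝ) =
      ∑ N ∈ mats (KG c ⊔ G) (k + 2), if XE_t (Xs G c) N = 0 then (1 : ℝ) else 0 := by
    rw [Finset.sum_boole, XE_sub hX]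
  have h2 : ∀ N ∈ mats (KG c ⊔ G) (k + 2), (if XE_t (Xs G c) N = 0 then (1 : ℝ) else 0) ≤
      1 - XE_t (Xs G c) N + (XE_t (Xs G c) N ^ 2 - XE_t (Xs G c) N) / 2 := by
    intro N _
    rw [XE_t_card]
    rcases Nat.eq_zero_or_pos ((Xs G c).filter fun e => e ∈ N).card with h | h
    · rw [h]
      simp
    · have h3 : (((Xs G c).filter fun e => e ∈ N).card : ℝ) ≠ 0 := by
        exact_mod_cast h.ne'
      rw [if_neg h3]
      rcases Nat.lt_or_ge ((Xs G c).filter fun e => e ∈ N).card 2 with h4 | h4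
      · have h5 : ((Xs G c).filter fun e => e ∈ N).card = 1 := by omega
        rw [h5]
        norm_num
      · have h5 : (2 : ℝ) ≤ (((Xs G c).filter fun e => e ∈ N).card : ℝ) := by exact_mod_cast h4
        nlinarith
  have h3 := Finset.sum_le_sum h2
  rw [← h1, Finset.sum_add_distrib, Finset.sum_sub_distrib, ← Finset.sum_div] at h3
  rw [Finset.sum_const, nsmul_eq_mul, mul_one] at h3
  have h4 : ∑ N ∈ mats (KG c ⊔ G) (k + 2), XE_t (Xs G c) N =
      ∑ e ∈ Xs G c, mF (KG c ⊔ G) (ev e) (k + 1) := by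
    rw [XE_single]
    refine Finset.sum_congr rfl fun e he => ?_
    refine count_one (H := KG c ⊔ G) ?_ (k + 1)
    exact SimpleGraph.edgeSet_mono le_sup_left ((hX e).1 he).1
  have h5 := XE_pairs (mats (KG c ⊔ G) (k + 2)) (Xs G c) hB0 (fun e f hef => count_two hef hB0 hB)
  rw [h4] at h3
  linarith

open scoped Classical in
theorem XE_one {G K : SimpleGraph V} {Y : Finset (Sym2 V)} {k : ℕ}
    (hY : ∀ e, e ∈ Y ↔ (e ∈ G.edgeSet ∧ e ∉ K.edgeSet)) {y : Sym2 V} (hy : y ∈ Y) :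
    (((mats (K ⊔ G) (k + 1)).filter fun N => y ∈ N ∧ ∀ f ∈ Y, f ∈ N → f = y).card : ℝ) ≤
      mF K (ev y) k := by
  unfold mF
  refine Nat.cast_le.2 ?_
  refine Finset.card_le_card_of_injOn (fun N => N.erase y) ?_ ?_
  · intro N hN
    rw [Finset.mem_coe, Finset.mem_filter] at hN ⊢
    obtain ⟨hN, hyN, hu⟩ := hN
    have h1 : N.erase y ∈ mats (K ⊔ G) k := erase_mem_mats hN hyN
    have h2 := mem_mats.1 h1
    refine ⟨mem_mats.2 ⟨?_, h2.2⟩, XE_free_erase hN hyN⟩
    intro e he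
    have h3 : e ∈ (K ⊔ G).edgeSet := h2.1 he
    have he' : e ≠ y ∧ e ∈ N := Finset.mem_erase.1 he
    by_contra hcon
    rw [SimpleGraph.edgeSet_sup] at h3
    rcases h3 with h3 | h3
    · exact hcon h3
    · exact he'.1 (hu e ((hY e).2 ⟨h3, hcon⟩) he'.2)
  · intro N hN N' hN' heq
    rw [Finset.mem_coe, Finset.mem_filter] at hN hN'
    have heq' : N.erase y = N'.erase y := heq
    rw [← Finset.insert_erase hN.2.1, ← Finset.insert_erase hN'.2.1, heq']

theorem upper_two {q : ℕ} {c : V → Fin q × Fin 2} {G : SimpleGraph V} {k : ℕ} {B : ℝ} (hB0 : 0 ≤ B)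
    (hB : ∀ W : Finset V, W.card = 4 → mF (KG c ⊔ G) W k ≤ B) :
    ((mats (KG c ⊔ G) (k + 2)).card : ℝ) ≤ ((mats (KG c) (k + 2)).card : ℝ) +
      ∑ y ∈ Ys G c, mF (KG c) (ev y) (k + 1) + ((Ys G c).card : ℝ) ^ 2 / 2 * B := by
  classical
  have hY : ∀ e, e ∈ Ys G c ↔ (e ∈ G.edgeSet ∧ e ∉ (KG c).edgeSet) := by
    intro e
    simp [Ys]
  have h1 : ((mats (KG c) (k + 2)).card : ℝ) =
      ∑ N ∈ mats (KG c ⊔ G) (k + 2), if XE_t (Ys G c) N = 0 then (1 : ℝ) else 0 := by
    have h0 := XE_sub (G := KG c) (K := G) (X := Ys G c) (k := k + 2) hY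
    rw [Finset.sum_boole, ← h0, sup_comm]
  have h2 : ∀ N ∈ mats (KG c ⊔ G) (k + 2), (1 : ℝ) ≤
      (if XE_t (Ys G c) N = 0 then (1 : ℝ) else 0) +
      (∑ y ∈ Ys G c, if (y ∈ N ∧ ∀ f ∈ Ys G c, f ∈ N → f = y) then (1 : ℝ) else 0) +
        (XE_t (Ys G c) N ^ 2 - XE_t (Ys G c) N) / 2 := by
    intro N _
    have hnn : 0 ≤ ∑ y ∈ Ys G c, (if (y ∈ N ∧ ∀ f ∈ Ys G c, f ∈ N → f = y) then (1 : ℝ) else 0) :=
      Finset.sum_nonneg fun y _ => by split_ifs <;> norm_num
    rw [XE_t_card]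
    rcases Nat.eq_zero_or_pos ((Ys G c).filter fun e => e ∈ N).card with h | h
    · rw [h]
      simp only [Nat.cast_zero, if_true]
      linarith
    · have h3 : (((Ys G c).filter fun e => e ∈ N).card : ℝ) ≠ 0 := by
        exact_mod_cast h.ne'
      rw [if_neg h3]
      rcases Nat.lt_or_ge ((Ys G c).filter fun e => e ∈ N).card 2 with h4 | h4
      · have h5 : ((Ys G c).filter fun e => e ∈ N).card = 1 := by omega
        obtain ⟨y, hy⟩ := Finset.card_eq_one.1 h5
        have hyN : y ∈ Ys G c ∧ y ∈ N := by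
          have : y ∈ (Ys G c).filter fun e => e ∈ N := by
            rw [hy]
            exact Finset.mem_singleton_self y
          exact Finset.mem_filter.1 this
        have huniq : ∀ f ∈ Ys G c, f ∈ N → f = y := by
          intro f hf hfN
          have : f ∈ (Ys G c).filter fun e => e ∈ N := Finset.mem_filter.2 ⟨hf, hfN⟩
          rw [hy] at this
          exact Finset.mem_singleton.1 this
        have h6 : (1 : ℝ) ≤
            ∑ y ∈ Ys G c, if (y ∈ N ∧ ∀ f ∈ Ys G c, f ∈ N → f = y) then (1 : ℝ) else 0 := by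
          refine le_trans ?_ (Finset.single_le_sum (f := fun y =>
            if (y ∈ N ∧ ∀ f ∈ Ys G c, f ∈ N → f = y) then (1 : ℝ) else 0)
            (fun y _ => by split_ifs <;> norm_num) hyN.1)
          show (1 : ℝ) ≤ if (y ∈ N ∧ ∀ f ∈ Ys G c, f ∈ N → f = y) then (1 : ℝ) else 0
          rw [if_pos ⟨hyN.2, huniq⟩]
        rw [h5, Nat.cast_one]
        linarith
      · have h5 : (2 : ℝ) ≤ (((Ys G c).filter fun e => e ∈ N).card : ℝ) := by exact_mod_cast h4
        nlinarith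
  have h3 := Finset.sum_le_sum h2
  rw [Finset.sum_add_distrib, Finset.sum_add_distrib, ← h1, ← Finset.sum_div] at h3
  rw [Finset.sum_const, nsmul_eq_mul, mul_one] at h3
  have h4 : ∑ N ∈ mats (KG c ⊔ G) (k + 2),
      (∑ y ∈ Ys G c, if (y ∈ N ∧ ∀ f ∈ Ys G c, f ∈ N → f = y) then (1 : ℝ) else 0) ≤
      ∑ y ∈ Ys G c, mF (KG c) (ev y) (k + 1) := by
    rw [Finset.sum_comm]
    refine Finset.sum_le_sum fun y hy => ?_
    rw [Finset.sum_boole]
    exact XE_one hY hy
  have h5 := XE_pairs (mats (KG c ⊔ G) (k + 2)) (Ys G c) hB0 (fun e f hef => count_two hef hB0 hB)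
  linarith

theorem union_bound {q r : ℕ} {c : V → Fin q × Fin 2} {G : SimpleGraph V} (hc : Cells r c)
    (hreg : Reg G r) {k : ℕ} {B : ℝ} (hB0 : 0 ≤ B)
    (hB : ∀ W : Finset V, W.card = 4 → mF (KG c ⊔ G) W k ≤ B) :
    ((mats G (k + 2)).card : ℝ) ≤ ((mats (KG c) (k + 2)).card : ℝ) -
      ∑ e ∈ Xs G c, mF (KG c) (ev e) (k + 1) + ∑ y ∈ Ys G c, mF (KG c) (ev y) (k + 1) +
      ((Xs G c).card : ℝ) ^ 2 * B := by
  have h1 := upper_one (c := c) (G := G) hB0 hB
  have h2 := upper_two (c := c) (G := G) hB0 hB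
  have h3 : ∑ e ∈ Xs G c, mF (KG c) (ev e) (k + 1) ≤
      ∑ e ∈ Xs G c, mF (KG c ⊔ G) (ev e) (k + 1) :=
    Finset.sum_le_sum fun e _ => mF_mono le_sup_left _ _
  have h4 : ((Xs G c).card : ℝ) = ((Ys G c).card : ℝ) := by
    exact_mod_cast card_XY hc hreg
  rw [← h4] at h2
  linarith

end

end Pool.Agent.Lib.MP_eeed5c_coX
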