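import Pool.Agent.Lib.MP_eeed5c_co_X.Defs

/-!
# Structure: local lemmas

`Nb G v` is the neighbourhood. For adjacent `u, v` put `A = Nb G v` (contains `u`), `B = Nb G u` (contains `v`), `dl G u v = ∑_{a ∈ A} |N(a) \ B|`, `cm G u v = |A ∩ B|`,
`dd = dl + cm`.

PROOFS (`G` is `r`-regular).
* `dl_eq`: `dl G u v = r^2 - #{(a,b) ∈ A × B : a ~ b}`: `|N(a) \ B| = r - |N(a) ∩ B|`, `|A| = r`. `dl_symm`: the right side is symmetric.
* `S1`: suppose `w ∈ A ∩ B`. `w ∈ A`: `|N(w) \ B| ≤ dl < r/8` (one term of the sum); `w ∈ B`: `|N(w) \ A| ≤ dl G v u = dl`. So `|N(w) ∩ A ∩ B| ≥ r - 2 dl`, but `|A ∩ B| = cm`;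
  `r ≤ 2 dl + cm ≤ 2 dd < r/4` is a contradiction (`r ≥ 1` because `8 dd < r`).
* `S2`: `∑_{b ∈ B ∩ B'} (|N(b) \ A| + |N(b) \ A'|) ≤ dl + dl' < r/4` and `|B ∩ B'| ≥ r/2`. If all the terms were `≥ 1` the sum would be `≥ r/2`; so some `b` has `N(b) ⊆ A` and `N(b) ⊆ A'`, all have
  `r` elements, so `A = N(b) = A'`. Now `|A ∩ A'| = r` and the same argument with the roles of the sides exchanged gives `B = B'`.
* `S3`: for `a ∈ A ∩ A'`: `|N(a) \ B| + |N(a) \ B'| ≥ 2r - (|N(a) ∩ B| + |N(a) ∩ B'|) ≥ 2r - (r + |B ∩ B'|) ≥ r/2`. Summing over `a ∈ A ∩ A'`: `|A ∩ A'| r/2 ≤ dl + dl' < r/4`, so `A ∩ A' = ∅`.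
* `S4`: if `|B ∩ B'| ≥ r/2`: `S2`, first case. Otherwise `S3`: `A ∩ A' = ∅`; then `|A ∩ A'| = 0 < r/2` and `S3` for `(v,u), (v',u')` gives `B ∩ B' = ∅`. Now compare `(u,v)` with `(v',u')`:
  if `|B ∩ A'| ≥ r/2`: `S2`: `A = B'`, `B = A'`, second case. Otherwise `A ∩ B' = ∅` and `B ∩ A' = ∅`: third case.
-/

set_option autoImplicit false

namespace Pool.Agent.Lib.MP_eeed5c_coX

open Finset Pool.Agent.Lib.MP_eeed5c_co Pool.Agent.Lib.MP_eeed5c_coT

section

variable {V : Type*} [Fintype V] {G : SimpleGraph V}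

open scoped Classical in
/-- The neighbourhood. -/
noncomputable def Nb (G : SimpleGraph V) (v : V) : Finset V := univ.filter fun u => G.Adj v u

open scoped Classical in
/-- The number of missing pairs. -/
noncomputable def dl (G : SimpleGraph V) (u v : V) : ℕ := ∑ a ∈ Nb G v, (Nb G a \ Nb G u).card

open scoped Classical in
/-- The number of common neighbours. -/
noncomputable def cm (G : SimpleGraph V) (u v : V) : ℕ := (Nb G v ∩ Nb G u).card

/-- The defect of a dart. -/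
noncomputable def dd (G : SimpleGraph V) (u v : V) : ℕ := dl G u v + cm G u v

open scoped Classical in
theorem XS1_mem {u v : V} : u ∈ Nb G v ↔ G.Adj v u := by
  unfold Nb
  rw [Finset.mem_filter]
  exact ⟨fun h => h.2, fun h => ⟨Finset.mem_univ _, h⟩⟩

theorem XS1_card {r : ℕ} (hreg : Reg G r) (v : V) : (Nb G v).card = r := hreg v

open scoped Classical in
theorem XS1_le {u v a : V} (ha : a ∈ Nb G v) : (Nb G a \ Nb G u).card ≤ dl G u v :=
  Finset.single_le_sum (f := fun a => (Nb G a \ Nb G u).card) (fun _ _ => Nat.zero_le _) ha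

omit [Fintype V] in
theorem XS1_split [DecidableEq V] (N A B : Finset V) : N.card ≤ (N \ A).card + (N \ B).card + (A ∩ B).card := by
  have h1 : N ⊆ (N \ A) ∪ (N \ B) ∪ (A ∩ B) := by
    intro x hx
    rw [Finset.mem_union, Finset.mem_union, Finset.mem_sdiff, Finset.mem_sdiff, Finset.mem_inter]
    tauto
  exact (Finset.card_le_card h1).trans ((Finset.card_union_le _ _).trans
    (Nat.add_le_add_right (Finset.card_union_le _ _) _))

omit [Fintype V] in
theorem XS1_two [DecidableEq V] (N A B : Finset V) : N.card ≤ (N \ A).card + (N \ B).card + (A ∩ B).card :=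
  XS1_split N A B

open scoped Classical in
theorem dl_eq {r : ℕ} (hreg : Reg G r) (u v : V) :
    dl G u v + ((Nb G v ×ˢ Nb G u).filter fun p => G.Adj p.1 p.2).card = r ^ 2 := by
  have h1 : ((Nb G v ×ˢ Nb G u).filter fun p => G.Adj p.1 p.2).card = ∑ a ∈ Nb G v, (Nb G a ∩ Nb G u).card := by
    rw [Finset.card_filter, Finset.sum_product]
    refine Finset.sum_congr rfl fun a _ => ?_
    rw [← Finset.card_filter]
    congr 1
    ext b
    rw [Finset.mem_filter, Finset.mem_inter]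
    constructor
    · rintro ⟨h1, h2⟩
      exact ⟨XS1_mem.2 h2, h1⟩
    · rintro ⟨h1, h2⟩
      exact ⟨h2, XS1_mem.1 h1⟩
  rw [h1]
  unfold dl
  rw [← Finset.sum_add_distrib]
  have h2 : ∀ a ∈ Nb G v, (Nb G a \ Nb G u).card + (Nb G a ∩ Nb G u).card = r := by
    intro a _
    rw [Finset.card_sdiff_add_card_inter, XS1_card hreg]
  rw [Finset.sum_congr rfl h2, Finset.sum_const, XS1_card hreg, smul_eq_mul, sq]

theorem dl_symm {r : ℕ} (hreg : Reg G r) (u v : V) : dl G u v = dl G v u := by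
  classical
  have h1 := dl_eq hreg u v
  have h2 := dl_eq hreg v u
  have h3 : ((Nb G v ×ˢ Nb G u).filter fun p => G.Adj p.1 p.2).card =
      ((Nb G u ×ˢ Nb G v).filter fun p => G.Adj p.1 p.2).card := by
    rw [Finset.card_filter, Finset.card_filter, Finset.sum_product, Finset.sum_product, Finset.sum_comm]
    refine Finset.sum_congr rfl fun a _ => Finset.sum_congr rfl fun b _ => ?_
    exact if_congr (G.adj_comm _ _) rfl rfl
  omega

theorem dd_symm {r : ℕ} (hreg : Reg G r) (u v : V) : dd G u v = dd G v u := by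
  classical
  unfold dd cm
  rw [dl_symm hreg u v, Finset.inter_comm]

theorem S1 {r : ℕ} (hreg : Reg G r) {u v : V} (huv : G.Adj u v) (hd : 8 * dd G u v < r) :
    Disjoint (Nb G v) (Nb G u) := by
  classical
  by_contra hcon
  obtain ⟨w, hw1, hw2⟩ := Finset.not_disjoint_iff.1 hcon
  have h1 := XS1_le hw1 (u := u)
  have h2 := XS1_le hw2 (u := v)
  rw [dl_symm hreg v u] at h2
  have h3 := XS1_card hreg w
  have h4 := XS1_split (Nb G w) (Nb G v) (Nb G u)
  unfold dd cm at hd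
  omega

open scoped Classical in
theorem XS1_half {r : ℕ} (hreg : Reg G r) {u v u' v' : V} (hd : 8 * dd G u v < r)
    (hd' : 8 * dd G u' v' < r) (h : r ≤ 2 * (Nb G u ∩ Nb G u').card) : Nb G v = Nb G v' := by
  obtain ⟨b, hb, hb0⟩ : ∃ b ∈ Nb G u ∩ Nb G u', (Nb G b \ Nb G v).card + (Nb G b \ Nb G v').card = 0 := by
    by_contra hcon
    push Not at hcon
    have h1 : ∀ b ∈ Nb G u ∩ Nb G u', 1 ≤ (Nb G b \ Nb G v).card + (Nb G b \ Nb G v').card :=
      fun b hb => Nat.one_le_iff_ne_zero.2 (hcon b hb)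
    have h2 : (Nb G u ∩ Nb G u').card ≤ ∑ b ∈ Nb G u ∩ Nb G u', ((Nb G b \ Nb G v).card + (Nb G b \ Nb G v').card) := by
      rw [Finset.card_eq_sum_ones]
      exact Finset.sum_le_sum h1
    rw [Finset.sum_add_distrib] at h2
    have h3 : ∑ b ∈ Nb G u ∩ Nb G u', (Nb G b \ Nb G v).card ≤ dl G v u :=
      Finset.sum_le_sum_of_subset Finset.inter_subset_left
    have h4 : ∑ b ∈ Nb G u ∩ Nb G u', (Nb G b \ Nb G v').card ≤ dl G v' u' :=
      Finset.sum_le_sum_of_subset Finset.inter_subset_right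
    rw [dl_symm hreg] at h3 h4
    unfold dd at hd hd'
    omega
  have h1 : (Nb G b \ Nb G v).card = 0 := by omega
  have h2 : (Nb G b \ Nb G v').card = 0 := by omega
  rw [Finset.card_eq_zero, Finset.sdiff_eq_empty_iff_subset] at h1 h2
  have h3 := Finset.eq_of_subset_of_card_le h1 (by rw [XS1_card hreg, XS1_card hreg])
  have h4 := Finset.eq_of_subset_of_card_le h2 (by rw [XS1_card hreg, XS1_card hreg])
  rw [← h3, h4]

open scoped Classical in
theorem S2 {r : ℕ} (hreg : Reg G r) {u v u' v' : V} (hd : 8 * dd G u v < r)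
    (hd' : 8 * dd G u' v' < r) (h : r ≤ 2 * (Nb G u ∩ Nb G u').card) :
    Nb G v = Nb G v' ∧ Nb G u = Nb G u' := by
  have h1 := XS1_half hreg hd hd' h
  refine ⟨h1, XS1_half hreg (by rwa [dd_symm hreg]) (by rwa [dd_symm hreg]) ?_⟩
  rw [h1, Finset.inter_self, XS1_card hreg]
  omega

open scoped Classical in
theorem S3 {r : ℕ} (hreg : Reg G r) {u v u' v' : V} (hd : 8 * dd G u v < r)
    (hd' : 8 * dd G u' v' < r) (h : 2 * (Nb G u ∩ Nb G u').card < r) :
    Disjoint (Nb G v) (Nb G v') := by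
  by_contra hcon
  obtain ⟨a, ha1, ha2⟩ := Finset.not_disjoint_iff.1 hcon
  have h1 := XS1_le ha1 (u := u)
  have h2 := XS1_le ha2 (u := u')
  have h3 := XS1_card hreg a
  have h4 := XS1_two (Nb G a) (Nb G u) (Nb G u')
  unfold dd at hd hd'
  omega

open scoped Classical in
theorem S4 {r : ℕ} (hreg : Reg G r) {u v u' v' : V} (hd : 8 * dd G u v < r)
    (hd' : 8 * dd G u' v' < r) :
    (Nb G v = Nb G v' ∧ Nb G u = Nb G u') ∨ (Nb G v = Nb G u' ∧ Nb G u = Nb G v') ∨
      Disjoint (Nb G u ∪ Nb G v) (Nb G u' ∪ Nb G v') := by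
  by_cases c1 : r ≤ 2 * (Nb G u ∩ Nb G u').card
  · exact Or.inl (S2 hreg hd hd' c1)
  · right
    have e1 : Disjoint (Nb G v) (Nb G v') := S3 hreg hd hd' (by omega)
    have hdv : 8 * dd G v u < r := by rwa [dd_symm hreg]
    have hdv' : 8 * dd G v' u' < r := by rwa [dd_symm hreg]
    have e2 : Disjoint (Nb G u) (Nb G u') := by
      refine S3 hreg hdv hdv' ?_
      rw [Finset.disjoint_iff_inter_eq_empty.1 e1, Finset.card_empty]
      omega
    by_cases c2 : r ≤ 2 * (Nb G u ∩ Nb G v').card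
    · left
      exact S2 hreg hd hdv' c2
    · right
      have e3 : Disjoint (Nb G v) (Nb G u') := S3 hreg hd hdv' (by omega)
      have e4 : Disjoint (Nb G u) (Nb G v') := by
        refine S3 hreg hdv hd' ?_
        rw [Finset.disjoint_iff_inter_eq_empty.1 e3, Finset.card_empty]
        omega
      rw [Finset.disjoint_union_left, Finset.disjoint_union_right, Finset.disjoint_union_right]
      exact ⟨⟨e2, e4⟩, ⟨e3, e1⟩⟩

end

end Pool.Agent.Lib.MP_eeed5c_coX
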