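import Pool.Agent.Lib.MP_eeed5c_co_X.Defs

/-!
# Recursions for the numbers of matchings leaving a set free

PROOFS.
* `mF_empty`: `∅ ⊆ free N` always. `mF_zero`: the only matching without edges is `∅` (`card_mats_zero`,
  `mem_mats`), and `free ∅ = univ`.
* `mF_anti`, `mF_mono`: inclusions of the sets of matchings (`mem_mats`: the edge set of `H` enters only in
  `N ⊆ H.edgeSet`).
* `mF_rec`: split the matchings `N` with `j + 1` edges leaving `W` free according to whether `u` is free. If
  `u` is free the set is counted by `mF H (insert u W) (j+1)`. Otherwise there is a unique edge `s(u,v) ∈ N`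
  (`partner_unique`), `v ∉ W`, `H.Adj u v`, and `N ↦ (v, N.erase s(u,v))` is a bijection onto the pairs with
  `N'` leaving `W ∪ {u, v}` free (`erase_mem_mats`, `insert_mem_mats`, `mem_free_insert`, `mem_free_erase`).
  The same argument for weighted sums is `HLa_part`, `HLa_rec` in `MP_eeed5c_co_M/HLa.lean` (copy and adapt).
* `mF_univ`: a matching with `j + 1 ≥ 1` edges covers a vertex.
-/

set_option autoImplicit false

namespace Pool.Agent.Lib.MP_eeed5c_coX

open Finset Pool.Agent.Lib.MP_eeed5c_co Pool.Agent.Lib.MP_eeed5c_coT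

section

variable {V : Type*} [Fintype V] {H : SimpleGraph V}

theorem mF_nonneg (W : Finset V) (j : ℕ) : 0 ≤ mF H W j := by
  unfold mF
  exact Nat.cast_nonneg _

theorem mF_empty (j : ℕ) : mF H ∅ j = ((mats H j).card : ℝ) := by
  classical
  unfold mF
  have h : (mats H j).filter (fun N => (∅ : Finset V) ⊆ free N) = mats H j :=
    Finset.filter_true_of_mem fun N _ => Finset.empty_subset _
  rw [h]

theorem mF_zero (W : Finset V) : mF H W 0 = 1 := by
  classical
  unfold mF
  have h : (mats H 0).filter (fun N => W ⊆ free N) = mats H 0 := by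
    refine Finset.filter_true_of_mem fun N hN => ?_
    have hN0 : N = ∅ := Finset.card_eq_zero.1 (mem_mats.1 hN).2.1
    intro v _
    rw [hN0, mem_free]
    intro e he
    simp at he
  rw [h, card_mats_zero, Nat.cast_one]

theorem mF_anti {W W' : Finset V} (h : W ⊆ W') (j : ℕ) : mF H W' j ≤ mF H W j := by
  classical
  unfold mF
  refine Nat.cast_le.2 (Finset.card_le_card ?_)
  intro N hN
  rw [Finset.mem_filter] at hN ⊢
  exact ⟨hN.1, h.trans hN.2⟩

theorem mF_mono {H' : SimpleGraph V} (h : H ≤ H') (W : Finset V) (j : ℕ) :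
    mF H W j ≤ mF H' W j := by
  classical
  unfold mF
  refine Nat.cast_le.2 (Finset.card_le_card ?_)
  intro N hN
  rw [Finset.mem_filter] at hN ⊢
  refine ⟨?_, hN.2⟩
  have h1 := mem_mats.1 hN.1
  exact mem_mats.2 ⟨h1.1.trans (SimpleGraph.edgeSet_mono h), h1.2⟩

open scoped Classical in
theorem XA_card (W : Finset V) {u : V} (hu : u ∉ W) (j : ℕ) :
    ((mats H (j + 1)).filter fun N => W ⊆ free N ∧ ¬ u ∈ free N).card =
      ∑ v ∈ univ.filter (fun v => H.Adj u v ∧ v ∉ W),
        ((mats H j).filter fun N => insert v (insert u W) ⊆ free N).card := by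
  rw [← Finset.card_sigma]
  symm
  refine Finset.card_bij (fun x _ => insert s(u, x.1) x.2) ?_ ?_ ?_
  · rintro ⟨v, N⟩ hx
    simp only [Finset.mem_sigma, Finset.mem_filter, Finset.mem_univ, true_and,
      Finset.insert_subset_iff] at hx ⊢
    obtain ⟨⟨hadj, hvW⟩, hN, hvN, huN, hWN⟩ := hx
    refine ⟨insert_mem_mats hN huN hvN hadj, ?_, ?_⟩
    · intro w hw
      rw [mem_free_insert]
      refine ⟨hWN hw, ?_, ?_⟩
      · rintro rfl
        exact hu hw
      · rintro rfl
        exact hvW hw
    · rw [mem_free_insert]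
      exact fun h => h.2.1 rfl
  · rintro ⟨v, N⟩ hx ⟨v', N'⟩ hx' heq
    simp only [Finset.mem_sigma, Finset.mem_filter, Finset.mem_univ, true_and,
      Finset.insert_subset_iff] at hx hx'
    obtain ⟨⟨hadj, hvW⟩, hN, hvN, huN, hWN⟩ := hx
    obtain ⟨⟨hadj', hvW'⟩, hN', hvN', huN', hWN'⟩ := hx'
    have heq' : insert s(u, v) N = insert s(u, v') N' := heq
    have hM : insert s(u, v) N ∈ mats H (j + 1) := insert_mem_mats hN huN hvN hadj
    have h1 : s(u, v) ∈ insert s(u, v) N := Finset.mem_insert_self _ _
    have h2 : s(u, v') ∈ insert s(u, v) N := by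
      rw [heq']
      exact Finset.mem_insert_self _ _
    have hvv : v = v' := partner_unique hM h1 h2
    subst hvv
    have h3 : s(u, v) ∉ N := fun h => mem_free.1 huN _ h (Sym2.mem_mk_left u v)
    have h4 : s(u, v) ∉ N' := fun h => mem_free.1 huN' _ h (Sym2.mem_mk_left u v)
    have h5 : N = N' := by
      rw [← Finset.erase_insert h3, ← Finset.erase_insert h4, heq']
    rw [h5]
  · intro M hM
    simp only [Finset.mem_filter] at hM
    obtain ⟨hMm, hW, hu'⟩ := hM
    rw [mem_free] at hu'
    push Not at hu'
    obtain ⟨e, he, hue⟩ := hu'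
    obtain ⟨v, rfl⟩ := hue
    have hfr := mem_free_erase hMm he
    refine ⟨⟨v, M.erase s(u, v)⟩, ?_, ?_⟩
    · simp only [Finset.mem_sigma, Finset.mem_filter, Finset.mem_univ, true_and,
        Finset.insert_subset_iff]
      refine ⟨⟨edge_mem hMm he, ?_⟩, erase_mem_mats hMm he, hfr.2, hfr.1, ?_⟩
      · intro hv
        exact mem_free.1 (hW hv) _ he (Sym2.mem_mk_right u v)
      · intro w hw
        rw [mem_free]
        intro f hf
        exact mem_free.1 (hW hw) f (Finset.mem_of_mem_erase hf)
    · exact Finset.insert_erase he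

open scoped Classical in
theorem mF_rec (W : Finset V) {u : V} (hu : u ∉ W) (j : ℕ) : mF H W (j + 1) =
    mF H (insert u W) (j + 1) +
      ∑ v ∈ univ.filter (fun v => H.Adj u v ∧ v ∉ W), mF H (insert v (insert u W)) j := by
  have h1 : ((mats H (j + 1)).filter fun N => W ⊆ free N).card =
      ((mats H (j + 1)).filter fun N => insert u W ⊆ free N).card +
        ∑ v ∈ univ.filter (fun v => H.Adj u v ∧ v ∉ W),
          ((mats H j).filter fun N => insert v (insert u W) ⊆ free N).card := by
    rw [← XA_card W hu j]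
    rw [← Finset.card_union_of_disjoint]
    · congr 1
      ext N
      simp only [Finset.mem_union, Finset.mem_filter, Finset.insert_subset_iff]
      tauto
    · rw [Finset.disjoint_left]
      intro N hN hN'
      simp only [Finset.mem_filter, Finset.insert_subset_iff] at hN hN'
      exact hN'.2.2 hN.2.1
  unfold mF
  rw [h1]
  push_cast
  rfl

theorem mF_univ (j : ℕ) : mF H univ (j + 1) = 0 := by
  classical
  unfold mF
  have h : (mats H (j + 1)).filter (fun N => (univ : Finset V) ⊆ free N) = ∅ := by
    refine Finset.filter_false_of_mem fun N hN hcon => ?_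
    have hc : N.card = j + 1 := (mem_mats.1 hN).2.1
    have hne : N.Nonempty := by
      rw [← Finset.card_pos, hc]
      exact Nat.succ_pos j
    obtain ⟨e, he⟩ := hne
    induction e using Sym2.inductionOn with
    | hf a b => exact mem_free.1 (hcon (Finset.mem_univ a)) _ he (Sym2.mem_mk_left a b)
  rw [h, Finset.card_empty, Nat.cast_zero]

end

end Pool.Agent.Lib.MP_eeed5c_coX
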