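import Pool.Agent.Lib.MP_eeed5c_co_X.XA

/-!
# The product formula

PROOFS.
* `Kab_coeff`: the coefficient of `X^j` is `C(a,j) C(b,j) j!` (for `j > a` it is zero). `Kab_symm`, `Kab_self`
  (`Lp_coeff`, `ell`), `Kab_NN`, `Kab_zero` (`Kab 0 b = 1`).
* `Kab_rec`: coefficient of `X^(j+1)`: `C(a+1,j+1) C(b,j+1) (j+1)! = C(a,j+1) C(b,j+1) (j+1)! + b C(a,j) C(b-1,j) j!`
  because `C(a+1,j+1) = C(a,j) + C(a,j+1)` and `(j+1) C(b,j+1) = b C(b-1,j)` (for `b = 0` both are zero).
* `mF_KG`: induction on the number of vertices outside `W`, for all `j`. If `W = univ` all the sizes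
  `r - cnt` are zero (`Cells`), the product is 1, and `mF` is 1 for `j = 0` and `0` otherwise (`mF_univ`).
  Otherwise take `u ∉ W` in the cell `(b, i)`, let `i'` be the other side. For `j = 0` both sides are 1 (the constant
  coefficient of each `Kab` is 1). For `j + 1`: `mF_rec`; the neighbours `v ∉ W` of `u` are the vertices
  outside `W` of the cell `(b, i')`, their number is `r - cnt c W (b,i')` (`Cells`). By induction hypothesis the first
  term is the coefficient of the product for `insert u W`: the sizes are the same except that the size of the cell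
  `(b,i)` has decreased by 1 (`cnt c (insert u W) (b,i) = cnt c W (b,i) + 1`, and `cnt c W (b,i) < r`), and each of
  the other terms the coefficient of `X^j` of the product where both sizes of the block `b` have decreased by 1.
  Factor out the factor of the block `b` (`Finset.mul_prod_erase` or `Finset.prod_update_of_mem`) and use `Kab_rec`
  (for `i = 1` together with `Kab_symm`).
-/

set_option autoImplicit false

namespace Pool.Agent.Lib.MP_eeed5c_coX

open Finset Pool.Agent.Lib.MP_eeed5c_co Pool.Agent.Lib.MP_eeed5c_coT

theorem Kab_coeff (a b j : ℕ) :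
    (Kab a b).coeff j = (a.choose j : ℝ) * (b.choose j : ℝ) * (j.factorial : ℝ) := by
  unfold Kab
  rw [Polynomial.finsetSum_coeff]
  simp only [Polynomial.coeff_monomial]
  by_cases h : j ≤ a
  · rw [Finset.sum_ite_eq' (range (a + 1)) j, if_pos (Finset.mem_range.2 (by omega))]
  · rw [Finset.sum_ite_eq' (range (a + 1)) j, if_neg (by rw [Finset.mem_range]; omega),
      Nat.choose_eq_zero_of_lt (by omega)]
    simp

theorem Kab_symm (a b : ℕ) : Kab a b = Kab b a := by
  ext j
  rw [Kab_coeff, Kab_coeff]
  ring

theorem Kab_self (r : ℕ) : Kab r r = Lp r := by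
  ext j
  rw [Kab_coeff, Lp_coeff]
  unfold ell
  ring

theorem Kab_NN (a b : ℕ) : NN (Kab a b) := by
  intro m
  rw [Kab_coeff]
  positivity

theorem Kab_zero (b : ℕ) : Kab 0 b = 1 := by
  unfold Kab
  simp

theorem Kab_rec (a b : ℕ) : Kab (a + 1) b =
    Kab a b + Polynomial.C (b : ℝ) * Polynomial.X * Kab a (b - 1) := by
  ext j
  rw [Polynomial.coeff_add, mul_assoc, Polynomial.coeff_C_mul]
  rcases j with _ | j
  · rw [Polynomial.coeff_X_mul_zero, Kab_coeff, Kab_coeff]
    simp
  · rw [Polynomial.coeff_X_mul, Kab_coeff, Kab_coeff, Kab_coeff, Nat.choose_succ_succ]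
    rcases b with _ | b
    · simp
    · have h := Nat.add_one_mul_choose_eq b j
      have h' : ((b : ℝ) + 1) * (b.choose j : ℝ) = ((b + 1).choose (j + 1) : ℝ) * ((j : ℝ) + 1) := by
        exact_mod_cast h
      rw [Nat.add_sub_cancel, Nat.factorial_succ]
      push_cast
      linear_combination (-(a.choose j : ℝ) * (j.factorial : ℝ)) * h'

private theorem XB_sym (i : Fin 2) (f : Fin 2 → ℕ) : Kab (f 0) (f 1) = Kab (f i) (f i.rev) := by
  fin_cases i
  · rfl
  · exact Kab_symm _ _

private theorem XB_rev (a : Fin 2) : a.rev ≠ a := by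
  revert a
  decide

private theorem XB_ne (a b : Fin 2) : a ≠ b ↔ b = a.rev := by
  revert a b
  decide

open scoped Classical in
private theorem XB_cnt {V : Type*} [Fintype V] {q : ℕ} (c : V → Fin q × Fin 2) (W : Finset V) {u : V}
    (hu : u ∉ W) (z : Fin q × Fin 2) : cnt c (insert u W) z = cnt c W z + if c u = z then 1 else 0 := by
  unfold cnt
  rw [Finset.filter_insert]
  split_ifs with h
  · rw [Finset.card_insert_of_notMem (fun h' => hu (Finset.mem_filter.1 h').1)]
  · rfl

open scoped Classical in
private theorem XB_compl {V : Type*} [Fintype V] {q r : ℕ} {c : V → Fin q × Fin 2} (hc : Cells r c)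
    (W : Finset V) (z : Fin q × Fin 2) :
    (univ.filter fun v => c v = z ∧ v ∉ W).card + cnt c W z = r := by
  rw [← hc z]
  unfold cnt
  have h := Finset.card_filter_add_card_filter_not (s := univ.filter fun v => c v = z) (fun v => v ∉ W)
  rw [← h, Finset.filter_filter, Finset.filter_filter]
  congr 2
  ext v
  simp only [Finset.mem_filter, Finset.mem_univ, true_and, not_not]
  exact and_comm

open scoped Classical in
private theorem XB_main {V : Type*} [Fintype V] {q r : ℕ} {c : V → Fin q × Fin 2} (hc : Cells r c)
    (n : ℕ) : ∀ (W : Finset V) (j : ℕ), Wᶜ.card = n → mF (KG c) W j =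
      (∏ b : Fin q, Kab (r - cnt c W (b, 0)) (r - cnt c W (b, 1))).coeff j := by
  induction n using Nat.strong_induction_on with
  | _ n ih =>
  intro W j hn
  rcases j with _ | j
  · rw [mF_zero, Polynomial.coeff_zero_eq_eval_zero, Polynomial.eval_prod]
    symm
    refine Finset.prod_eq_one fun b _ => ?_
    rw [← Polynomial.coeff_zero_eq_eval_zero, Kab_coeff]
    simp
  · by_cases hW : W = univ
    · subst hW
      rw [mF_univ]
      have h1 : ∀ z, cnt c univ z = r := fun z => hc z
      simp only [h1, Nat.sub_self, Kab_zero, Finset.prod_const_one]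
      rw [Polynomial.coeff_one, if_neg (by omega)]
    · obtain ⟨u, hu⟩ : ∃ u, u ∉ W := by
        by_contra hcon
        push Not at hcon
        exact hW (Finset.eq_univ_iff_forall.2 hcon)
      obtain ⟨b, i, hbi⟩ : ∃ b i, c u = (b, i) := ⟨(c u).1, (c u).2, rfl⟩
      have hlt : ∀ v, v ∉ W → v ∉ insert u W → (insert v (insert u W))ᶜ.card < n := by
        intro v _ hv2
        rw [← hn]
        refine Finset.card_lt_card ?_
        rw [Finset.compl_ssubset_compl]
        exact ⟨fun x hx => Finset.mem_insert_of_mem (Finset.mem_insert_of_mem hx),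
          fun h => hu (h (Finset.mem_insert_of_mem (Finset.mem_insert_self u W)))⟩
      have hlt1 : (insert u W)ᶜ.card < n := by
        rw [← hn]
        refine Finset.card_lt_card ?_
        rw [Finset.compl_ssubset_compl]
        exact Finset.ssubset_insert hu
      have hcell := XB_compl hc W (b, i)
      have hpos : 0 < (univ.filter fun v => c v = (b, i) ∧ v ∉ W).card :=
        Finset.card_pos.2 ⟨u, by simp [hbi, hu]⟩
      obtain ⟨a, ha⟩ : ∃ a, r - cnt c W (b, i) = a + 1 := ⟨r - cnt c W (b, i) - 1, by omega⟩
      set m : ℕ := r - cnt c W (b, i.rev) with hm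
      have hrev : i.rev ≠ i := XB_rev i
      set Q : Polynomial ℝ := ∏ b' ∈ univ.erase b, Kab (r - cnt c W (b', 0)) (r - cnt c W (b', 1)) with hQ
      -- product for W
      have eW : (∏ b' : Fin q, Kab (r - cnt c W (b', 0)) (r - cnt c W (b', 1))) = Kab (a + 1) m * Q := by
        rw [← Finset.mul_prod_erase univ _ (Finset.mem_univ b),
          XB_sym i (fun k => r - cnt c W (b, k)), ha]
      -- product for insert u W
      have eU : (∏ b' : Fin q, Kab (r - cnt c (insert u W) (b', 0)) (r - cnt c (insert u W) (b', 1))) =
          Kab a m * Q := by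
        rw [← Finset.mul_prod_erase univ _ (Finset.mem_univ b),
          XB_sym i (fun k => r - cnt c (insert u W) (b, k))]
        have e1 : r - cnt c (insert u W) (b, i) = a := by
          rw [XB_cnt c W hu, hbi, if_pos rfl]
          omega
        have e2 : r - cnt c (insert u W) (b, i.rev) = m := by
          rw [XB_cnt c W hu, hbi, if_neg (fun h => hrev (Prod.mk.inj h).2.symm), add_zero]
        rw [e1, e2]
        congr 1
        refine Finset.prod_congr rfl fun b' hb' => ?_
        have hne : b' ≠ b := (Finset.mem_erase.1 hb').1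
        have e3 : ∀ k, cnt c (insert u W) (b', k) = cnt c W (b', k) := by
          intro k
          rw [XB_cnt c W hu, hbi, if_neg (fun h => hne (Prod.mk.inj h).1.symm), add_zero]
        rw [e3, e3]
      -- product for insert v (insert u W)
      have eV : ∀ v, c v = (b, i.rev) → v ∉ W → v ∉ insert u W →
          (∏ b' : Fin q, Kab (r - cnt c (insert v (insert u W)) (b', 0))
            (r - cnt c (insert v (insert u W)) (b', 1))) = Kab a (m - 1) * Q := by
        intro v hv hvW hvu
        rw [← Finset.mul_prod_erase univ _ (Finset.mem_univ b),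
          XB_sym i (fun k => r - cnt c (insert v (insert u W)) (b, k))]
        have e1 : r - cnt c (insert v (insert u W)) (b, i) = a := by
          rw [XB_cnt c _ hvu, XB_cnt c W hu, hbi, hv, if_pos rfl,
            if_neg (fun h => hrev (Prod.mk.inj h).2)]
          omega
        have e2 : r - cnt c (insert v (insert u W)) (b, i.rev) = m - 1 := by
          rw [XB_cnt c _ hvu, XB_cnt c W hu, hbi, hv, if_pos rfl,
            if_neg (fun h => hrev (Prod.mk.inj h).2.symm)]
          omega
        rw [e1, e2]
        congr 1
        refine Finset.prod_congr rfl fun b' hb' => ?_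
        have hne : b' ≠ b := (Finset.mem_erase.1 hb').1
        have e3 : ∀ k, cnt c (insert v (insert u W)) (b', k) = cnt c W (b', k) := by
          intro k
          rw [XB_cnt c _ hvu, XB_cnt c W hu, hbi, hv, if_neg (fun h => hne (Prod.mk.inj h).1.symm),
            if_neg (fun h => hne (Prod.mk.inj h).1.symm), add_zero, add_zero]
        rw [e3, e3]
      have hadj : ∀ v, ((KG c).Adj u v ∧ v ∉ W) ↔ (c v = (b, i.rev) ∧ v ∉ W) := by
        intro v
        refine and_congr_left fun _ => ?_
        change ((c u).1 = (c v).1 ∧ (c u).2 ≠ (c v).2) ↔ _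
        rw [XB_ne, hbi, Prod.ext_iff]
        exact and_congr_left fun _ => eq_comm
      have hnu : ∀ v, c v = (b, i.rev) → v ∉ W → v ∉ insert u W := by
        intro v hv hvW hmem
        rcases Finset.mem_insert.1 hmem with h | h
        · subst h
          rw [hbi] at hv
          exact hrev (Prod.mk.inj hv).2.symm
        · exact hvW h
      rw [mF_rec W hu j, ih _ hlt1 (insert u W) (j + 1) rfl, eU, eW]
      have hfil : (univ.filter fun v => (KG c).Adj u v ∧ v ∉ W) =
          univ.filter fun v => c v = (b, i.rev) ∧ v ∉ W := by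
        ext v
        simp only [Finset.mem_filter, Finset.mem_univ, true_and]
        exact hadj v
      have hsum : ∑ v ∈ univ.filter (fun v => (KG c).Adj u v ∧ v ∉ W), mF (KG c) (insert v (insert u W)) j =
          (m : ℝ) * (Kab a (m - 1) * Q).coeff j := by
        have hcard : (univ.filter fun v => c v = (b, i.rev) ∧ v ∉ W).card = m := by
          have := XB_compl hc W (b, i.rev)
          omega
        rw [hfil, ← hcard, ← nsmul_eq_mul, ← Finset.sum_const]
        refine Finset.sum_congr rfl fun v hv => ?_
        rw [Finset.mem_filter] at hv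
        have h4 := hnu v hv.2.1 hv.2.2
        rw [ih _ (hlt v hv.2.2 h4) _ j rfl, eV v hv.2.1 hv.2.2 h4, hcard]
      rw [hsum, Kab_rec, add_mul, Polynomial.coeff_add, mul_assoc, mul_assoc, Polynomial.coeff_C_mul,
        Polynomial.coeff_X_mul]

theorem mF_KG {V : Type*} [Fintype V] {q r : ℕ} {c : V → Fin q × Fin 2} (hc : Cells r c)
    (W : Finset V) (j : ℕ) : mF (KG c) W j =
      (∏ b : Fin q, Kab (r - cnt c W (b, 0)) (r - cnt c W (b, 1))).coeff j := by
  classical
  exact XB_main hc _ W j rfl

end Pool.Agent.Lib.MP_eeed5c_coX
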