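import Pool.Agent.Lib.MP_eeed5c_co_X.Defs

/-!
# Cauchy-Schwarz for coefficients of products

PROOF of `prod_cs`: induction on the finite set (`Finset.induction_on`). Empty product: the coefficient of `1` is 0 or 1.
Step: `(f i * F).coeff N = ∑_{(a,b) ∈ antidiagonal N} (f i).coeff a * F.coeff b`, and
`(∑ x_p)^2 ≤ (∑ y_p) (∑ z_p)` if `y_p, z_p ≥ 0` and `x_p^2 ≤ y_p z_p`
(`Finset.sum_sq_le_sum_mul_sum_of_sq_le_mul` or Cauchy-Schwarz for `√y_p`, `√z_p`), with
`y_p = (g i).coeff a * (∏ g).coeff b`, `z_p = (h i).coeff a * (∏ h).coeff b`. The products of polynomials with nonnegative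
coefficients have nonnegative coefficients (`NN_mul`, induction).
-/

set_option autoImplicit false

namespace Pool.Agent.Lib.MP_eeed5c_coX

open Finset Pool.Agent.Lib.MP_eeed5c_co Pool.Agent.Lib.MP_eeed5c_coT

theorem NN_prod {ι : Type*} (s : Finset ι) (g : ι → Polynomial ℝ) (hg : ∀ i ∈ s, NN (g i)) :
    NN (∏ i ∈ s, g i) := by
  classical
  induction s using Finset.induction_on with
  | empty => rw [Finset.prod_empty]; exact NN_one
  | insert i s hi ih =>
    rw [Finset.prod_insert hi]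
    exact NN_mul (hg i (Finset.mem_insert_self i s))
      (ih fun j hj => hg j (Finset.mem_insert_of_mem hj))

theorem CLe_prod {ι : Type*} (s : Finset ι) (f g : ι → Polynomial ℝ) (hf : ∀ i ∈ s, NN (f i))
    (hfg : ∀ i ∈ s, CLe (f i) (g i)) : CLe (∏ i ∈ s, f i) (∏ i ∈ s, g i) := by
  classical
  induction s using Finset.induction_on with
  | empty => rw [Finset.prod_empty, Finset.prod_empty]; exact CLe_refl _
  | insert i s hi ih =>
    rw [Finset.prod_insert hi, Finset.prod_insert hi]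
    have h1 : CLe (∏ j ∈ s, f j) (∏ j ∈ s, g j) :=
      ih (fun j hj => hf j (Finset.mem_insert_of_mem hj))
        (fun j hj => hfg j (Finset.mem_insert_of_mem hj))
    have h2 : NN (f i) := hf i (Finset.mem_insert_self i s)
    have h3 : CLe (f i) (g i) := hfg i (Finset.mem_insert_self i s)
    have h4 : NN (∏ j ∈ s, g j) := by
      refine NN_prod s g fun j hj m => ?_
      exact le_trans (hf j (Finset.mem_insert_of_mem hj) m)
        (hfg j (Finset.mem_insert_of_mem hj) m)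
    exact CLe_trans (CLe_mul_left h1 h2) (CLe_mul_right h3 h4)

private theorem cs_aux {κ : Type*} (s : Finset κ) (x y z : κ → ℝ) (hy : ∀ p ∈ s, 0 ≤ y p)
    (hz : ∀ p ∈ s, 0 ≤ z p) (h : ∀ p ∈ s, x p ^ 2 ≤ y p * z p) :
    (∑ p ∈ s, x p) ^ 2 ≤ (∑ p ∈ s, y p) * ∑ p ∈ s, z p := by
  have h1 : (∑ p ∈ s, Real.sqrt (y p * z p)) ^ 2 ≤ (∑ p ∈ s, y p) * ∑ p ∈ s, z p :=
    Finset.sum_sq_le_sum_mul_sum_of_sq_le_mul s hy hz
      (fun p hp => (Real.sq_sqrt (mul_nonneg (hy p hp) (hz p hp))).le)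
  have h2 : |∑ p ∈ s, x p| ≤ ∑ p ∈ s, Real.sqrt (y p * z p) := by
    refine (Finset.abs_sum_le_sum_abs _ _).trans (Finset.sum_le_sum fun p hp => ?_)
    exact Real.abs_le_sqrt (h p hp)
  have h3 : (∑ p ∈ s, x p) ^ 2 ≤ (∑ p ∈ s, Real.sqrt (y p * z p)) ^ 2 := by
    rw [← sq_abs (∑ p ∈ s, x p)]
    exact pow_le_pow_left₀ (abs_nonneg _) h2 2
  exact h3.trans h1

theorem prod_cs {ι : Type*} (s : Finset ι) (f g h : ι → Polynomial ℝ)
    (hg : ∀ i ∈ s, NN (g i)) (hh : ∀ i ∈ s, NN (h i))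
    (hfg : ∀ i ∈ s, ∀ j, ((f i).coeff j) ^ 2 ≤ (g i).coeff j * (h i).coeff j) (N : ℕ) :
    ((∏ i ∈ s, f i).coeff N) ^ 2 ≤ (∏ i ∈ s, g i).coeff N * (∏ i ∈ s, h i).coeff N := by
  classical
  induction s using Finset.induction_on generalizing N with
  | empty =>
    rw [Finset.prod_empty, Finset.prod_empty, Finset.prod_empty, sq]
  | insert i s hi ih =>
    rw [Finset.prod_insert hi, Finset.prod_insert hi, Finset.prod_insert hi,
      Polynomial.coeff_mul, Polynomial.coeff_mul, Polynomial.coeff_mul]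
    have hg' : ∀ j ∈ s, NN (g j) := fun j hj => hg j (Finset.mem_insert_of_mem hj)
    have hh' : ∀ j ∈ s, NN (h j) := fun j hj => hh j (Finset.mem_insert_of_mem hj)
    have ih' := ih hg' hh' (fun j hj => hfg j (Finset.mem_insert_of_mem hj))
    have hgi : NN (g i) := hg i (Finset.mem_insert_self i s)
    have hhi : NN (h i) := hh i (Finset.mem_insert_self i s)
    have hfi := hfg i (Finset.mem_insert_self i s)
    refine cs_aux _ _ _ _ (fun p _ => mul_nonneg (hgi _) (NN_prod s g hg' _))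
      (fun p _ => mul_nonneg (hhi _) (NN_prod s h hh' _)) (fun p _ => ?_)
    have e1 := hfi p.1
    have e2 := ih' p.2
    have e3 : 0 ≤ (g i).coeff p.1 * (h i).coeff p.1 := mul_nonneg (hgi _) (hhi _)
    calc ((f i).coeff p.1 * (∏ j ∈ s, f j).coeff p.2) ^ 2
        = ((f i).coeff p.1) ^ 2 * ((∏ j ∈ s, f j).coeff p.2) ^ 2 := by ring
      _ ≤ ((g i).coeff p.1 * (h i).coeff p.1) *
            ((∏ j ∈ s, g j).coeff p.2 * (∏ j ∈ s, h j).coeff p.2) :=
          mul_le_mul e1 e2 (sq_nonneg _) e3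
      _ = _ := by ring

end Pool.Agent.Lib.MP_eeed5c_coX
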