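import Pool.Agent.Lib.MP_eeed5c_co_X.XB
import Pool.Agent.Lib.MP_eeed5c_co_X.XC1

/-!
# Removing vertices from the blocks

PROOFS. Write `(r)_s = r.descFactorial s`.
* `desc_low`: `(r)_s = C(r,s) s!`, `C(r,s) ≥ (r/s)^s` (`Nat.pow_le_choose` or `(r - i)/(s - i) ≥ r/s`), `s! ≥ (s/3)^s` (the factors
  multiply to `(r/3)^s`). Direct alternative: induction on `s`... or: `(r)_s ≥ (r/s)^s s!` and
  `3^s s! ≥ s^s` (induction: `(s+1)^(s+1) ≤ 3 (s+1) s^s`, i.e. `(1+1/s)^s ≤ 3`; `Real.add_one_le_exp` and `exp 1 ≤ 3`: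
  `s^s / s! ≤ exp s ≤ 3^s`, `Real.pow_div_factorial_le_exp`). `s = 0` is trivial.
* `Kab_shift`: coefficient of `X^j`, `j ≥ s`: `C(r-s,j-s) (r)_s = C(r,j) (j)_s`, so
  `(r)_s C(r-s,j-s)^2 (j-s)! (r)_s = C(r,j)^2 (j)_s^2 (j-s)! = C(r,j)^2 j! (j)_s` (`(j)_s (j-s)! = j!`) and `(j)_s ≤ (r)_s` for `j ≤ r`. Divide by
  `(r)_s > 0`. For `j < s` the left side is zero.
* `prod_shift`: `C (r)_{α b} * X^(α b) * Kab (r - α b) (r - α b)` is coefficientwise at most `Lp r`; `CLe_prod`; the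
  product of the powers of `X` is `X^(∑ α)` (`Finset.prod_pow_eq_pow_sum`), `coeff_X_pow_mul`; `∏ Lp r = (Lp r)^q`.
* `T_sym`: `T_lc` gives by induction on `d`: `T (k+d) T (k-d) ≤ T k ^ 2` for `d ≤ k`: `T_lc` with `i = k-d-1`,
  `j = k+d` reads `T (k-d-1) T (k+d+1) ≤ T (k-d) T (k+d)`.
* `mF_KG_le`: put `α b = cnt c W (b,0)`, `β b = cnt c W (b,1)`, `a = ∑ α`, `b' = ∑ β`, `a + b' = 2 e` (every vertex of `W` is in
  exactly one cell), all `α b, β b ≤ r` (`Cells`). `mF_KG` and `prod_cs` (`f = Kab (r-α) (r-β)`, `g = Kab (r-α) (r-α)`,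
  `h = Kab (r-β) (r-β)`, with equality in the hypothesis): `mF^2 ≤ [X^(k-e)] ∏ g * [X^(k-e)] ∏ h`. By `prod_shift` the first factor times
  `∏ (r)_{α b}` is `≤ T (k - e + a)`, the second times `∏ (r)_{β b}` is `≤ T (k - e + b')`. The product of the two
  values of `T` is `≤ T k ^ 2` by `T_sym` (if `a ≥ e`: `k - e + a = k + d`, `k - e + b' = k - d` with `d = a - e`; else symmetric;
  `d ≤ k` because `d ≤ e ≤ k`). The product of all `(r)_{..}` is at least `(r/3)^(2e)` (`desc_low`). Take the square root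
  (`abs_le_of_sq_le_sq` or `pow_le_pow_left` contraposed).
-/

set_option autoImplicit false

namespace Pool.Agent.Lib.MP_eeed5c_coX

open Finset Pool.Agent.Lib.MP_eeed5c_co Pool.Agent.Lib.MP_eeed5c_coT

private theorem XC2_desc {r s : ℕ} (h : s ≤ r) : r ^ s * s.factorial ≤ r.descFactorial s * s ^ s := by
  rw [← Nat.descFactorial_self s, Nat.descFactorial_eq_prod_range, Nat.descFactorial_eq_prod_range]
  have h1 : r ^ s * ∏ i ∈ range s, (s - i) = ∏ i ∈ range s, (r * (s - i)) := by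
    rw [Finset.prod_mul_distrib, Finset.prod_const, Finset.card_range]
  have h2 : (∏ i ∈ range s, (r - i)) * s ^ s = ∏ i ∈ range s, ((r - i) * s) := by
    rw [Finset.prod_mul_distrib, Finset.prod_const, Finset.card_range]
  rw [h1, h2]
  refine Finset.prod_le_prod' fun i _ => ?_
  rw [Nat.mul_sub, Nat.sub_mul]
  refine Nat.sub_le_sub_left ?_ _
  rw [mul_comm i s]
  exact Nat.mul_le_mul_right i h

private theorem XC2_three (s : ℕ) : (s : ℝ) ^ s ≤ 3 ^ s * (s.factorial : ℝ) := by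
  have h1 := Real.pow_div_factorial_le_exp (x := (s : ℝ)) (Nat.cast_nonneg s) s
  have h2 : Real.exp (s : ℝ) ≤ 3 ^ s := by
    have h3 : Real.exp (s : ℝ) = (Real.exp 1) ^ s := by
      rw [← Real.exp_nat_mul, mul_one]
    rw [h3]
    exact pow_le_pow_left₀ (Real.exp_pos 1).le Real.exp_one_lt_three.le s
  have h4 : (0 : ℝ) < (s.factorial : ℝ) := by exact_mod_cast Nat.factorial_pos s
  exact (div_le_iff₀ h4).1 (h1.trans h2)

theorem desc_low {r s : ℕ} (h : s ≤ r) : ((r : ℝ) / 3) ^ s ≤ (r.descFactorial s : ℝ) := by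
  have h1 : (r : ℝ) ^ s * (s.factorial : ℝ) ≤ (r.descFactorial s : ℝ) * (s : ℝ) ^ s := by
    exact_mod_cast XC2_desc h
  have h2 := XC2_three s
  have h4 : (0 : ℝ) < (s.factorial : ℝ) := by exact_mod_cast Nat.factorial_pos s
  have h5 : (0 : ℝ) ≤ (r.descFactorial s : ℝ) := Nat.cast_nonneg _
  rw [div_pow, div_le_iff₀ (by positivity)]
  refine le_of_mul_le_mul_right (h1.trans ?_) h4
  rw [mul_assoc]
  exact mul_le_mul_of_nonneg_left h2 h5

private theorem XC2_id {r s i : ℕ} (h : s + i ≤ r) :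
    r.descFactorial s * (r - s).choose i = r.choose (s + i) * (s + i).descFactorial s := by
  have h1 := Nat.choose_mul (n := r) (k := s + i) (s := s) (Nat.le_add_right s i)
  rw [Nat.add_sub_cancel_left] at h1
  rw [Nat.descFactorial_eq_factorial_mul_choose, Nat.descFactorial_eq_factorial_mul_choose]
  calc s.factorial * r.choose s * (r - s).choose i
      = s.factorial * (r.choose s * (r - s).choose i) := by ring
    _ = s.factorial * (r.choose (s + i) * (s + i).choose s) := by rw [h1]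
    _ = _ := by ring

theorem Kab_shift {r s : ℕ} (h : s ≤ r) (j : ℕ) :
    (r.descFactorial s : ℝ) * (Polynomial.X ^ s * Kab (r - s) (r - s)).coeff j ≤
      (Lp r).coeff j := by
  rw [Lp_coeff, Polynomial.coeff_X_pow_mul']
  split_ifs with hj
  swap
  · rw [mul_zero]; exact ell_nonneg r j
  obtain ⟨i, rfl⟩ := Nat.exists_eq_add_of_le hj
  rw [Nat.add_sub_cancel_left, Kab_coeff]
  rcases Nat.lt_or_ge r (s + i) with hri | hri
  · rw [Nat.choose_eq_zero_of_lt (show r - s < i by omega), Nat.cast_zero, zero_mul, zero_mul, mul_zero]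
    exact ell_nonneg r _
  have hid : (r.descFactorial s : ℝ) * ((r - s).choose i : ℝ) =
      (r.choose (s + i) : ℝ) * ((s + i).descFactorial s : ℝ) := by
    exact_mod_cast XC2_id hri
  have hfac : (i.factorial : ℝ) * ((s + i).descFactorial s : ℝ) = ((s + i).factorial : ℝ) := by
    have h1 := Nat.factorial_mul_descFactorial (Nat.le_add_right s i)
    rw [Nat.add_sub_cancel_left] at h1
    exact_mod_cast h1
  have hle : ((s + i).descFactorial s : ℝ) ≤ (r.descFactorial s : ℝ) := by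
    have h1 : (s + i).descFactorial s ≤ r.descFactorial s := by
      rw [Nat.descFactorial_eq_prod_range, Nat.descFactorial_eq_prod_range]
      exact Finset.prod_le_prod' fun a _ => Nat.sub_le_sub_right hri a
    exact_mod_cast h1
  have hpos : (0 : ℝ) < (r.descFactorial s : ℝ) := by
    have h1 : 0 < r.descFactorial s := by
      rw [Nat.descFactorial_eq_factorial_mul_choose]
      exact Nat.mul_pos (Nat.factorial_pos s) (Nat.choose_pos h)
    exact_mod_cast h1
  unfold ell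
  refine le_of_mul_le_mul_left ?_ hpos
  calc (r.descFactorial s : ℝ) * ((r.descFactorial s : ℝ) *
        (((r - s).choose i : ℝ) * ((r - s).choose i : ℝ) * (i.factorial : ℝ)))
      = ((r.descFactorial s : ℝ) * ((r - s).choose i : ℝ)) ^ 2 * (i.factorial : ℝ) := by ring
    _ = (r.choose (s + i) : ℝ) ^ 2 * ((i.factorial : ℝ) * ((s + i).descFactorial s : ℝ)) *
        ((s + i).descFactorial s : ℝ) := by rw [hid]; ring
    _ = ((r.choose (s + i) : ℝ) ^ 2 * ((s + i).factorial : ℝ)) * ((s + i).descFactorial s : ℝ) := by rw [hfac]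
    _ ≤ ((r.choose (s + i) : ℝ) ^ 2 * ((s + i).factorial : ℝ)) * (r.descFactorial s : ℝ) :=
        mul_le_mul_of_nonneg_left hle (by positivity)
    _ = _ := by ring

theorem prod_shift {q r : ℕ} {α : Fin q → ℕ} (h : ∀ b, α b ≤ r) (N : ℕ) :
    (∏ b : Fin q, (r.descFactorial (α b) : ℝ)) *
      (∏ b : Fin q, Kab (r - α b) (r - α b)).coeff N ≤ T r q (N + ∑ b, α b) := by
  have h1 := CLe_prod (Finset.univ : Finset (Fin q))
    (fun b => Polynomial.C (r.descFactorial (α b) : ℝ) * (Polynomial.X ^ (α b) * Kab (r - α b) (r - α b)))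
    (fun _ => Lp r) (fun b _ m => ?_) (fun b _ m => ?_)
  · have h2 := h1 (N + ∑ b, α b)
    rw [Finset.prod_mul_distrib, Finset.prod_mul_distrib, Finset.prod_pow_eq_pow_sum, ← map_prod,
      Polynomial.coeff_C_mul, Polynomial.coeff_X_pow_mul, Finset.prod_const, Finset.card_univ, Fintype.card_fin] at h2
    exact h2
  · rw [Polynomial.coeff_C_mul, Polynomial.coeff_X_pow_mul']
    refine mul_nonneg (Nat.cast_nonneg _) ?_
    split_ifs
    · exact Kab_NN _ _ _
    · exact le_rfl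
  · rw [Polynomial.coeff_C_mul]
    exact Kab_shift (h b) m

theorem T_sym (r q : ℕ) {k d : ℕ} (h : d ≤ k) : T r q (k + d) * T r q (k - d) ≤ T r q k ^ 2 := by
  induction d with
  | zero => rw [Nat.add_zero, Nat.sub_zero, sq]
  | succ d ih =>
    have h1 := T_lc r q (i := k - (d + 1)) (j := k + d) (by omega)
    rw [show k - (d + 1) + 1 = k - d by omega] at h1
    have h2 := ih (by omega)
    calc T r q (k + (d + 1)) * T r q (k - (d + 1))
        = T r q (k - (d + 1)) * T r q (k + d + 1) := by rw [mul_comm]; rfl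
      _ ≤ T r q (k - d) * T r q (k + d) := h1
      _ = T r q (k + d) * T r q (k - d) := mul_comm _ _
      _ ≤ _ := h2

private theorem XC2_cnt {V : Type*} [Fintype V] {q : ℕ} (c : V → Fin q × Fin 2) (W : Finset V) :
    (∑ b : Fin q, cnt c W (b, 0)) + ∑ b : Fin q, cnt c W (b, 1) = W.card := by
  classical
  rw [← Finset.sum_add_distrib]
  have h1 : W.card = ∑ z : Fin q × Fin 2, (W.filter fun v => c v = z).card :=
    Finset.card_eq_sum_card_fiberwise (fun v _ => Finset.mem_univ _)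
  rw [h1, Fintype.sum_prod_type]
  refine Finset.sum_congr rfl fun b _ => ?_
  rw [Fin.sum_univ_two]
  unfold cnt
  congr 1

private theorem XC2_cnt_le {V : Type*} [Fintype V] {q r : ℕ} {c : V → Fin q × Fin 2} (hc : Cells r c)
    (W : Finset V) (z : Fin q × Fin 2) : cnt c W z ≤ r := by
  classical
  rw [← hc z]
  unfold cnt
  exact Finset.card_le_card (Finset.filter_subset_filter _ (Finset.subset_univ W))

private theorem XC2_Tprod {r q k e a b : ℕ} (hab : a + b = 2 * e) (he : e ≤ k) :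
    T r q (k - e + a) * T r q (k - e + b) ≤ T r q k ^ 2 := by
  rcases Nat.le_total e a with h | h
  · have h1 := T_sym r q (k := k) (d := a - e) (by omega)
    rwa [show k - e + a = k + (a - e) by omega, show k - e + b = k - (a - e) by omega]
  · have h1 := T_sym r q (k := k) (d := b - e) (by omega)
    rw [mul_comm]
    rwa [show k - e + b = k + (b - e) by omega, show k - e + a = k - (b - e) by omega]

private theorem XC2_prod_low {q r : ℕ} {α : Fin q → ℕ} (h : ∀ b, α b ≤ r) :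
    ((r : ℝ) / 3) ^ (∑ b, α b) ≤ ∏ b : Fin q, (r.descFactorial (α b) : ℝ) := by
  rw [← Finset.prod_pow_eq_pow_sum]
  exact Finset.prod_le_prod (fun b _ => by positivity) fun b _ => desc_low (h b)

theorem mF_KG_le {V : Type*} [Fintype V] {q r k e : ℕ} {c : V → Fin q × Fin 2} (hc : Cells r c)
    (hr : 1 ≤ r) {W : Finset V} (hW : W.card = 2 * e) (he : e ≤ k) :
    mF (KG c) W (k - e) ≤ (3 / (r : ℝ)) ^ e * T r q k := by
  have hα : ∀ b : Fin q, cnt c W (b, 0) ≤ r := fun b => XC2_cnt_le hc W _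
  have hβ : ∀ b : Fin q, cnt c W (b, 1) ≤ r := fun b => XC2_cnt_le hc W _
  have hsum : (∑ b : Fin q, cnt c W (b, 0)) + ∑ b : Fin q, cnt c W (b, 1) = 2 * e := by
    rw [XC2_cnt, hW]
  have hcs := prod_cs (Finset.univ : Finset (Fin q))
    (fun b => Kab (r - cnt c W (b, 0)) (r - cnt c W (b, 1)))
    (fun b => Kab (r - cnt c W (b, 0)) (r - cnt c W (b, 0)))
    (fun b => Kab (r - cnt c W (b, 1)) (r - cnt c W (b, 1)))
    (fun b _ => Kab_NN _ _) (fun b _ => Kab_NN _ _)
    (fun b _ j => by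
      rw [Kab_coeff, Kab_coeff, Kab_coeff]
      exact le_of_eq (by ring)) (k - e)
  rw [← mF_KG hc W (k - e)] at hcs
  have hA0 : 0 ≤ (∏ b : Fin q, Kab (r - cnt c W (b, 0)) (r - cnt c W (b, 0))).coeff (k - e) :=
    NN_prod _ _ (fun b _ => Kab_NN _ _) _
  have hB0 : 0 ≤ (∏ b : Fin q, Kab (r - cnt c W (b, 1)) (r - cnt c W (b, 1))).coeff (k - e) :=
    NN_prod _ _ (fun b _ => Kab_NN _ _) _
  have hA := prod_shift (r := r) hα (k - e)
  have hB := prod_shift (r := r) hβ (k - e)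
  have hDA := XC2_prod_low (r := r) hα
  have hDB := XC2_prod_low (r := r) hβ
  have hT := XC2_Tprod (r := r) (q := q) hsum he
  generalize (∏ b : Fin q, Kab (r - cnt c W (b, 0)) (r - cnt c W (b, 0))).coeff (k - e) = A at hcs hA0 hA
  generalize (∏ b : Fin q, Kab (r - cnt c W (b, 1)) (r - cnt c W (b, 1))).coeff (k - e) = B at hcs hB0 hB
  generalize (∏ b : Fin q, (r.descFactorial (cnt c W (b, 0)) : ℝ)) = DA at hA hDA
  generalize (∏ b : Fin q, (r.descFactorial (cnt c W (b, 1)) : ℝ)) = DB at hB hDB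
  generalize hTa : T r q (k - e + ∑ b : Fin q, cnt c W (b, 0)) = TA at hA hT
  generalize hTb : T r q (k - e + ∑ b : Fin q, cnt c W (b, 1)) = TB at hB hT
  have hr0 : (0 : ℝ) < r := by exact_mod_cast hr
  have hmF : 0 ≤ mF (KG c) W (k - e) := mF_nonneg W _
  have hTk : 0 ≤ T r q k := T_nonneg r q k
  have hTB0 : 0 ≤ TB := by rw [← hTb]; exact T_nonneg r q _
  have hTA0 : 0 ≤ TA := by rw [← hTa]; exact T_nonneg r q _
  have hDA0 : 0 ≤ DA := le_trans (by positivity) hDA
  have hDB0 : 0 ≤ DB := le_trans (by positivity) hDB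
  have hD : ((r : ℝ) / 3) ^ (2 * e) ≤ DA * DB := by
    rw [← hsum, pow_add]
    exact mul_le_mul hDA hDB (by positivity) hDA0
  have hsq : (((r : ℝ) / 3) ^ e * mF (KG c) W (k - e)) ^ 2 ≤ (T r q k) ^ 2 := by
    calc (((r : ℝ) / 3) ^ e * mF (KG c) W (k - e)) ^ 2
        = ((r : ℝ) / 3) ^ (2 * e) * (mF (KG c) W (k - e)) ^ 2 := by
          rw [mul_pow, ← pow_mul, mul_comm e 2]
      _ ≤ (DA * DB) * (A * B) := mul_le_mul hD hcs (sq_nonneg _) (mul_nonneg hDA0 hDB0)
      _ = (DA * A) * (DB * B) := by ring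
      _ ≤ TA * TB := mul_le_mul hA hB (mul_nonneg hDB0 hB0) hTA0
      _ ≤ _ := hT
  have h1 : ((r : ℝ) / 3) ^ e * mF (KG c) W (k - e) ≤ T r q k := by
    exact (le_abs_self _).trans (abs_le_of_sq_le_sq hsq hTk)
  have h3 : (3 / (r : ℝ)) ^ e * ((r : ℝ) / 3) ^ e = 1 := by
    rw [← mul_pow, div_mul_div_comm, mul_comm (3 : ℝ) (r : ℝ), div_self (by positivity), one_pow]
  calc mF (KG c) W (k - e) = (3 / (r : ℝ)) ^ e * (((r : ℝ) / 3) ^ e * mF (KG c) W (k - e)) := by
        rw [← mul_assoc, h3, one_mul]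
    _ ≤ _ := mul_le_mul_of_nonneg_left h1 (by positivity)

end Pool.Agent.Lib.MP_eeed5c_coX
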