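import Pool.Agent.Lib.MP_eeed5c_co_X.XC2

/-!
# Additional edges

PROOFS.
* `mF_add_edge`: a matching of `H ⊔ fromEdgeSet {s(a,b)}` with `j+1` edges leaving `W` free either does not contain
  `s(a,b)` (then it is a matching of `H`), or it contains it, and then erasing it gives a matching with `j` edges leaving
  `insert a (insert b W)` free, of `H` (all the other edges are edges of `H`). If `a ∈ W` or `b ∈ W` the second case is impossible.
* `mF_plus_le`: induction on the finite set `Y` of edges, for all `e`, `W`. Step: `Y = insert y Y'`, `y = s(a,b)`,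
  `KG c ⊔ fromEdgeSet (insert y Y') = (KG c ⊔ fromEdgeSet Y') ⊔ fromEdgeSet {y}` (`a = b`: nothing is added). Case `k - e = 0`: `mF = 1` for both
  graphs (`mF_zero`), use the induction hypothesis and `1 ≤ 1 + 3/r`. Case `k - e = j + 1`: `mF_add_edge`; if `a ∈ W` or `b ∈ W` only the first term;
  otherwise `|W ∪ {a,b}| = 2 (e+1)`, `j = k - (e+1)`, `e + 1 ≤ k`, and the induction hypothesis gives
  `(3/r)^e (1+3/r)^t P + (3/r)^(e+1) (1+3/r)^t P = (3/r)^e (1+3/r)^(t+1) P`, `t = |Y'|`.
* `mF_H_le`: `k ≥ 2`, `|W| = 4`, `e = 2`: `H = KG c ⊔ G = KG c ⊔ fromEdgeSet (Ys G c)` (same edges), and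
  `(1 + 3/r)^T ≤ exp (3 T / r) ≤ exp (3/1000) ≤ 1.0034`, `9 * 1.0034 ≤ 9.04`.
-/

set_option autoImplicit false

namespace Pool.Agent.Lib.MP_eeed5c_coX

open Finset Pool.Agent.Lib.MP_eeed5c_co Pool.Agent.Lib.MP_eeed5c_coT

section

variable {V : Type*} [Fintype V]

open scoped Classical in
theorem XD_sub {H : SimpleGraph V} {W' : Finset V} {j : ℕ}
    (f : Finset (Sym2 V) → Finset (Sym2 V)) (S : Finset (Finset (Sym2 V)))
    (hf : ∀ N ∈ S, f N ∈ mats H j ∧ W' ⊆ free (f N))
    (hinj : ∀ N ∈ S, ∀ N' ∈ S, f N = f N' → N = N') : (S.card : ℝ) ≤ mF H W' j := by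
  unfold mF
  have h : S.card ≤ ((mats H j).filter fun N => W' ⊆ free N).card := by
    refine Finset.card_le_card_of_injOn f ?_ ?_
    · intro N hN
      exact Finset.mem_coe.2 (Finset.mem_filter.2 (hf N (Finset.mem_coe.1 hN)))
    · intro N hN N' hN' h
      exact hinj N (Finset.mem_coe.1 hN) N' (Finset.mem_coe.1 hN') h
  exact_mod_cast h

omit [Fintype V] in
theorem XD_edge {H : SimpleGraph V} {a b : V} {e : Sym2 V}
    (he : e ∈ (H ⊔ SimpleGraph.fromEdgeSet {s(a, b)}).edgeSet) (hne : e ≠ s(a, b)) :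
    e ∈ H.edgeSet := by
  induction e using Sym2.ind with
  | _ x y =>
    rw [SimpleGraph.mem_edgeSet, SimpleGraph.sup_adj, SimpleGraph.fromEdgeSet_adj] at he
    rcases he with he | he
    · exact (SimpleGraph.mem_edgeSet _).2 he
    · exact absurd (Set.mem_singleton_iff.1 he.1) hne

omit [Fintype V] in
theorem XD_loop {H : SimpleGraph V} {a b : V} (hab : a = b)
    (he : s(a, b) ∈ (H ⊔ SimpleGraph.fromEdgeSet {s(a, b)}).edgeSet) : False := by
  rw [SimpleGraph.mem_edgeSet] at he
  exact he.ne hab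

open scoped Classical in
theorem mF_add_edge (H : SimpleGraph V) (a b : V) (W : Finset V) (j : ℕ) :
    mF (H ⊔ SimpleGraph.fromEdgeSet {s(a, b)}) W (j + 1) ≤ mF H W (j + 1) +
      (if a ∈ W ∨ b ∈ W ∨ a = b then 0 else mF H (insert a (insert b W)) j) := by
  have hsplit : mF (H ⊔ SimpleGraph.fromEdgeSet {s(a, b)}) W (j + 1) =
      (((((mats (H ⊔ SimpleGraph.fromEdgeSet {s(a, b)}) (j + 1)).filter fun N => W ⊆ free N).filter
        fun N => s(a, b) ∉ N).card : ℝ)) +
      ((((mats (H ⊔ SimpleGraph.fromEdgeSet {s(a, b)}) (j + 1)).filter fun N => W ⊆ free N).filter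
        fun N => ¬ s(a, b) ∉ N).card : ℝ) := by
    unfold mF
    rw [← Nat.cast_add, Finset.card_filter_add_card_filter_not]
  rw [hsplit]
  refine add_le_add ?_ ?_
  · refine XD_sub (H := H) id _ ?_ ?_
    · intro N hN
      rw [Finset.mem_filter, Finset.mem_filter] at hN
      obtain ⟨⟨hN1, hW⟩, hab⟩ := hN
      obtain ⟨h1, h2, h3⟩ := mem_mats.1 hN1
      refine ⟨mem_mats.2 ⟨?_, h2, h3⟩, hW⟩
      intro e he
      exact XD_edge (h1 he) (fun h => hab (h ▸ Finset.mem_coe.1 he))
    · intro N _ N' _ h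
      exact h
  · split_ifs with hc
    · have he : (((mats (H ⊔ SimpleGraph.fromEdgeSet {s(a, b)}) (j + 1)).filter fun N => W ⊆ free N).filter
        fun N => ¬ s(a, b) ∉ N) = ∅ := by
        refine Finset.eq_empty_of_forall_notMem fun N hN => ?_
        rw [Finset.mem_filter, Finset.mem_filter, not_not] at hN
        obtain ⟨⟨hN1, hW⟩, hab⟩ := hN
        rcases hc with h | h | h
        · exact mem_free.1 (hW h) _ hab (by simp)
        · exact mem_free.1 (hW h) _ hab (by simp)
        · exact XD_loop h ((mem_mats.1 hN1).1 (Finset.mem_coe.2 hab))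
      rw [he, Finset.card_empty, Nat.cast_zero]
    · refine XD_sub (H := H) (fun N => N.erase s(a, b)) _ ?_ ?_
      · intro N hN
        rw [Finset.mem_filter, Finset.mem_filter, not_not] at hN
        obtain ⟨⟨hN1, hW⟩, hab⟩ := hN
        have h4 := erase_mem_mats hN1 hab
        obtain ⟨h1, h2, h3⟩ := mem_mats.1 h4
        obtain ⟨h5, h6⟩ := mem_free_erase hN1 hab
        refine ⟨mem_mats.2 ⟨?_, h2, h3⟩, ?_⟩
        · intro e he
          exact XD_edge (h1 he) (Finset.ne_of_mem_erase (Finset.mem_coe.1 he))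
        · intro v hv
          rw [Finset.mem_insert, Finset.mem_insert] at hv
          rcases hv with rfl | rfl | hv
          · exact h5
          · exact h6
          · exact mem_free.2 fun e he => mem_free.1 (hW hv) e (Finset.mem_of_mem_erase he)
      · intro N hN N' hN' h
        rw [Finset.mem_filter, Finset.mem_filter, not_not] at hN hN'
        rw [← Finset.insert_erase hN.2, ← Finset.insert_erase hN'.2]
        exact congrArg (insert s(a, b)) h

omit [Fintype V] in
theorem XD_insert (H : SimpleGraph V) (y : Sym2 V) (Y : Set (Sym2 V)) :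
    H ⊔ SimpleGraph.fromEdgeSet (insert y Y) =
      (H ⊔ SimpleGraph.fromEdgeSet Y) ⊔ SimpleGraph.fromEdgeSet {y} := by
  ext u v
  simp only [SimpleGraph.sup_adj, SimpleGraph.fromEdgeSet_adj, Set.mem_insert_iff,
    Set.mem_singleton_iff]
  tauto

theorem mF_plus_le {q r k : ℕ} {c : V → Fin q × Fin 2} (hc : Cells r c) (hr : 1 ≤ r)
    (Y : Finset (Sym2 V)) : ∀ (e : ℕ) (W : Finset V), W.card = 2 * e → e ≤ k →
      mF (KG c ⊔ SimpleGraph.fromEdgeSet (↑Y : Set (Sym2 V))) W (k - e) ≤
        (3 / (r : ℝ)) ^ e * (1 + 3 / (r : ℝ)) ^ Y.card * T r q k := by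
  classical
  have hr0 : (0 : ℝ) < r := by exact_mod_cast hr
  have h3 : (0 : ℝ) ≤ 3 / (r : ℝ) := by positivity
  have hT : 0 ≤ T r q k := T_nonneg r q k
  induction Y using Finset.induction_on with
  | empty =>
    intro e W hW he
    have h1 : KG c ⊔ SimpleGraph.fromEdgeSet (↑(∅ : Finset (Sym2 V)) : Set (Sym2 V)) = KG c := by
      rw [Finset.coe_empty, SimpleGraph.fromEdgeSet_empty, sup_bot_eq]
    rw [h1, Finset.card_empty, pow_zero, mul_one]
    exact mF_KG_le hc hr hW he
  | insert y Y' hy ih =>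
    intro e W hW he
    rw [Finset.coe_insert, XD_insert, Finset.card_insert_of_notMem hy, pow_succ]
    have ih1 := ih e W hW he
    have hP : (0 : ℝ) ≤ (3 / (r : ℝ)) ^ e * (1 + 3 / (r : ℝ)) ^ Y'.card * T r q k :=
      mul_nonneg (mul_nonneg (pow_nonneg h3 _) (pow_nonneg (by linarith) _)) hT
    have hle : (3 / (r : ℝ)) ^ e * (1 + 3 / (r : ℝ)) ^ Y'.card * T r q k ≤
        (3 / (r : ℝ)) ^ e * ((1 + 3 / (r : ℝ)) ^ Y'.card * (1 + 3 / (r : ℝ))) * T r q k := by
      have : (3 / (r : ℝ)) ^ e * ((1 + 3 / (r : ℝ)) ^ Y'.card * (1 + 3 / (r : ℝ))) * T r q k =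
          (3 / (r : ℝ)) ^ e * (1 + 3 / (r : ℝ)) ^ Y'.card * T r q k * (1 + 3 / (r : ℝ)) := by ring
      rw [this]
      nlinarith [mul_nonneg hP h3]
    rcases Nat.eq_zero_or_pos (k - e) with h0 | hpos
    · rw [h0, mF_zero] at ih1 ⊢
      exact ih1.trans hle
    · obtain ⟨j, hj⟩ : ∃ j, k - e = j + 1 := ⟨k - e - 1, by omega⟩
      induction y using Sym2.ind with
      | _ a b =>
        rw [hj] at ih1 ⊢
        refine (mF_add_edge _ a b W j).trans ?_
        split_ifs with hc'
        · rw [add_zero]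
          exact ih1.trans hle
        · rw [not_or, not_or] at hc'
          obtain ⟨ha, hb, hab⟩ := hc'
          have hW' : (insert a (insert b W)).card = 2 * (e + 1) := by
            rw [Finset.card_insert_of_notMem, Finset.card_insert_of_notMem hb, hW]
            · ring
            · rw [Finset.mem_insert, not_or]
              exact ⟨hab, ha⟩
          have ih2 := ih (e + 1) (insert a (insert b W)) hW' (by omega)
          have hj2 : k - (e + 1) = j := by omega
          rw [hj2] at ih2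
          refine (add_le_add ih1 ih2).trans (le_of_eq ?_)
          rw [pow_succ]
          ring

theorem XD_Ys {q : ℕ} (G : SimpleGraph V) (c : V → Fin q × Fin 2) :
    KG c ⊔ G = KG c ⊔ SimpleGraph.fromEdgeSet (↑(Ys G c) : Set (Sym2 V)) := by
  classical
  ext u v
  simp only [SimpleGraph.sup_adj, SimpleGraph.fromEdgeSet_adj, Finset.mem_coe]
  constructor
  · rintro (h | h)
    · exact Or.inl h
    · by_cases hk : (KG c).Adj u v
      · exact Or.inl hk
      · refine Or.inr ⟨?_, h.ne⟩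
        unfold Ys
        rw [Finset.mem_filter]
        exact ⟨Finset.mem_univ _, (SimpleGraph.mem_edgeSet _).2 h,
          fun h' => hk ((SimpleGraph.mem_edgeSet _).1 h')⟩
  · rintro (h | ⟨h, _⟩)
    · exact Or.inl h
    · unfold Ys at h
      rw [Finset.mem_filter] at h
      exact Or.inr ((SimpleGraph.mem_edgeSet _).1 h.2.1)

theorem mF_H_le {q r k : ℕ} {c : V → Fin q × Fin 2} {G : SimpleGraph V} (hc : Cells r c)
    (hr : 1 ≤ r) (hk : 2 ≤ k) (hT : 1000 * ((Ys G c).card : ℝ) ≤ r) {W : Finset V}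
    (hW : W.card = 4) : mF (KG c ⊔ G) W (k - 2) ≤ 9.04 / (r : ℝ) ^ 2 * T r q k := by
  have hr0 : (0 : ℝ) < r := by exact_mod_cast hr
  have hT0 : 0 ≤ T r q k := T_nonneg r q k
  rw [XD_Ys]
  refine (mF_plus_le hc hr (Ys G c) 2 W (by rw [hW]) hk).trans ?_
  refine mul_le_mul_of_nonneg_right ?_ hT0
  have h1 : (1 + 3 / (r : ℝ)) ^ (Ys G c).card ≤ Real.exp (3 / 1000) := by
    have h2 : 1 + 3 / (r : ℝ) ≤ Real.exp (3 / r) := by
      have := Real.add_one_le_exp (3 / (r : ℝ))
      linarith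
    have h3 : (1 + 3 / (r : ℝ)) ^ (Ys G c).card ≤ Real.exp (3 / r) ^ (Ys G c).card :=
      pow_le_pow_left₀ (by positivity) h2 _
    refine h3.trans ?_
    rw [← Real.exp_nat_mul]
    refine Real.exp_le_exp.2 ?_
    rw [← mul_div_assoc, div_le_div_iff₀ hr0 (by norm_num)]
    nlinarith
  have h4 : Real.exp (3 / 1000) ≤ 1.004 := by
    have h5 := Real.exp_bound' (x := 3 / 1000) (by norm_num) (by norm_num) (n := 2) (by norm_num)
    refine h5.trans ?_
    norm_num [Finset.sum_range_succ]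
  have h6 : (3 / (r : ℝ)) ^ 2 * (1 + 3 / (r : ℝ)) ^ (Ys G c).card ≤
      (3 / (r : ℝ)) ^ 2 * 1.004 := by
    refine mul_le_mul_of_nonneg_left (h1.trans h4) (by positivity)
  refine h6.trans ?_
  rw [div_pow, div_mul_eq_mul_div]
  refine div_le_div_of_nonneg_right ?_ (by positivity)
  norm_num

end

end Pool.Agent.Lib.MP_eeed5c_coX
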