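import Pool.Agent.Lib.MP_eeed5c_co_X.Defs

/-!
# Two blocks

PROOFS. `HP_coeff`, `Lp_coeff`; `(Lp r).derivative.coeff j = (j+1) ell r (j+1) = (r-j)^2 ell r j` (`ell_succ`).
* `HP_one`: `X K' = r K - H`, `HP_two`: `X H' = r H - K'` (`K = Lp r`, `H = HP r`; coefficients `j ell_j` and `j (r-j) ell_j = r (r-j) ell_j - (r-j)^2 ell_j`).
* `HP_id`: `r H' K - r K' H - H' H + K' K' = H' (r K - H) - K' (r H - K') = H' (X K') - K' (X H') = 0`.
* For `p ∈ antidiagonal j` put `w p = ell r p.1 * ell r p.2`, `h1 = r - p.1`, `h2 = r - p.2` (real), `s = 2 r - j = h1 + h2`,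
  `D = h1 - h2`. Coefficients of `X^j`: `K' K`: `∑ w h1^2`; `H H`: `∑ w h1 h2`; `H K`: `∑ w h1`; `(K' + H') K`: `∑ w h1^3` (`K'_i + H'_i = (r - i) K'_i`),
  `(K' + H') H`: `∑ w h1^3 h2`; `K' K'`: `∑ w h1^2 h2^2`; `K' H`: `∑ w h1^2 h2`. All sums are symmetric in `p.1, p.2` (`Finset.Nat.sum_antidiagonal_swap`),
  so `HP_id` reads
  (I) `∑ w D^2 (r s - h1 h2) = ∑ w (h1^2 (r - h2) + h2^2 (r - h1))`, and with `h1 h2 = (s^2 - D^2)/4`, `h1^2 + h2^2 = (s^2 + D^2)/2`: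
  (II) `∑ w D^2 (r s - h1 h2 - r/2 - s/4) = (s^2 (2 r - s) / 4) ∑ w`.
  `w ≠ 0` only for `p.1, p.2 ≤ r`, so `h1, h2 ≥ 0`; if `j > 2 r` everything is zero, so let `0 ≤ s ≤ 2 r`. Let `a, b, d` be the coefficients of
  `K' K`, `H H`, `H K`: `∑ w D^2 = 2 (a - b)`, `s ∑ w = 2 d`, `s^2 ∑ w = 2 a + 2 b`.
* `two_low`: in (II) `h1 h2 + r/2 + s/4 ≥ 0`, so `r s ∑ w D^2 ≥ (s^2 (2r-s)/4) ∑ w`; divide by `s` if `s > 0`: `4 r * 2 (a - b) ≥ 2 r * 2 d - (2 a + 2 b)`. If `s = 0`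
  then all `w h1 = w h2 = 0`, `a = b = d = 0`.
* `two_up`: claim `∑ w D^2 ≤ 2 s ∑ w`. If `s ≤ 2`: `D^2 ≤ s^2 ≤ 2 s`. If `s > 2`: `h1 h2 ≤ s^2/4`, so with `κ = r s - s^2/4 - r/2 - s/4` (II) gives
  `κ ∑ w D^2 ≤ (s^2 (2r-s)/4) ∑ w ≤ 2 s κ ∑ w`, because `s^2 (2r-s)/4 ≤ 2 s κ` is `6 r s - s^2 - 4 r - 2 s ≥ 0` (true for `2 ≤ s ≤ 2r`), and `κ > 0`.
  The claim is `2 (a - b) ≤ 4 d`.
-/

set_option autoImplicit false

namespace Pool.Agent.Lib.MP_eeed5c_coX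

open Finset Pool.Agent.Lib.MP_eeed5c_co Pool.Agent.Lib.MP_eeed5c_coT

theorem HP_coeff (r j : ℕ) : (HP r).coeff j = ((r : ℝ) - j) * ell r j := by
  unfold HP
  rw [Polynomial.finsetSum_coeff]
  simp only [Polynomial.coeff_monomial]
  by_cases h : j ∈ range (r + 1)
  · rw [Finset.sum_eq_single_of_mem j h (fun b _ hb => if_neg hb), if_pos rfl]
  · rw [Finset.sum_eq_zero (fun b hb => if_neg (fun e : b = j => h (e ▸ hb)))]
    rw [Finset.mem_range] at h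
    rw [ell_eq_zero (by omega), mul_zero]

theorem HP_NN (r : ℕ) : NN (HP r) := by
  intro j
  rw [HP_coeff]
  by_cases h : r < j
  · rw [ell_eq_zero h, mul_zero]
  · have h1 : (j : ℝ) ≤ r := by exact_mod_cast (not_lt.mp h)
    exact mul_nonneg (by linarith) (ell_nonneg r j)

private theorem dL_coeff (r j : ℕ) :
    (Lp r).derivative.coeff j = ((r : ℝ) - j) ^ 2 * ell r j := by
  rw [Polynomial.coeff_derivative, Lp_coeff, ← ell_succ]; ring

private theorem dH_coeff (r j : ℕ) :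
    (HP r).derivative.coeff j = ((r : ℝ) - j - 1) * (((r : ℝ) - j) ^ 2 * ell r j) := by
  rw [Polynomial.coeff_derivative, HP_coeff, ← ell_succ]
  push_cast
  ring

theorem HP_one (r : ℕ) : Polynomial.X * (Lp r).derivative = Polynomial.C (r : ℝ) * Lp r - HP r := by
  ext j
  rw [Polynomial.coeff_sub, Polynomial.coeff_C_mul, HP_coeff, Lp_coeff]
  cases j with
  | zero =>
    rw [Polynomial.coeff_X_mul_zero]
    push_cast
    ring
  | succ j =>
    rw [Polynomial.coeff_X_mul, Polynomial.coeff_derivative, Lp_coeff]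
    push_cast
    ring

theorem HP_two (r : ℕ) :
    Polynomial.X * (HP r).derivative = Polynomial.C (r : ℝ) * HP r - (Lp r).derivative := by
  ext j
  rw [Polynomial.coeff_sub, Polynomial.coeff_C_mul, HP_coeff, dL_coeff]
  cases j with
  | zero =>
    rw [Polynomial.coeff_X_mul_zero]
    push_cast
    ring
  | succ j =>
    rw [Polynomial.coeff_X_mul, Polynomial.coeff_derivative, HP_coeff]
    push_cast
    ring

theorem HP_id (r : ℕ) : Polynomial.C (r : ℝ) * (HP r).derivative * Lp r -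
    Polynomial.C (r : ℝ) * (Lp r).derivative * HP r - (HP r).derivative * HP r +
      (Lp r).derivative * (Lp r).derivative = 0 := by
  have h1 := HP_one r
  have h2 := HP_two r
  have e : Polynomial.C (r : ℝ) * (HP r).derivative * Lp r -
    Polynomial.C (r : ℝ) * (Lp r).derivative * HP r - (HP r).derivative * HP r +
      (Lp r).derivative * (Lp r).derivative =
      (HP r).derivative * (Polynomial.C (r : ℝ) * Lp r - HP r) -
        (Lp r).derivative * (Polynomial.C (r : ℝ) * HP r - (Lp r).derivative) := by ring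
  rw [e, ← h1, ← h2]
  ring

/-- The weight. -/
private noncomputable def wt (r : ℕ) (p : ℕ × ℕ) : ℝ := ell r p.1 * ell r p.2

private theorem wt_nonneg (r : ℕ) (p : ℕ × ℕ) : 0 ≤ wt r p :=
  mul_nonneg (ell_nonneg r p.1) (ell_nonneg r p.2)

private theorem wt_zero {r : ℕ} {p : ℕ × ℕ} (h : ¬ (p.1 ≤ r ∧ p.2 ≤ r)) : wt r p = 0 := by
  unfold wt
  by_cases h1 : p.1 ≤ r
  · have h2 : ¬ p.2 ≤ r := fun h2 => h ⟨h1, h2⟩
    rw [ell_eq_zero (r := r) (j := p.2) (by omega), mul_zero]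
  · rw [ell_eq_zero (r := r) (j := p.1) (by omega), zero_mul]

private theorem wt_swap (r : ℕ) (p : ℕ × ℕ) : wt r p.swap = wt r p := by
  unfold wt
  rw [Prod.fst_swap, Prod.snd_swap, mul_comm]

/-- Sums over the antidiagonal of expressions in the heights. -/
private theorem sym_sum (r j : ℕ) (F : ℝ → ℝ → ℝ) :
    ∑ p ∈ antidiagonal j, wt r p * F ((r : ℝ) - p.1) ((r : ℝ) - p.2) =
      ∑ p ∈ antidiagonal j, wt r p * F ((r : ℝ) - p.2) ((r : ℝ) - p.1) := by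
  rw [← Finset.Nat.sum_antidiagonal_swap (f := fun p : ℕ × ℕ =>
    wt r p * F ((r : ℝ) - p.1) ((r : ℝ) - p.2))]
  refine Finset.sum_congr rfl fun p _ => ?_
  rw [wt_swap, Prod.fst_swap, Prod.snd_swap]

private theorem coeffA (r j : ℕ) : ((Lp r).derivative * Lp r).coeff j =
    ∑ p ∈ antidiagonal j, wt r p * ((r : ℝ) - p.1) ^ 2 := by
  rw [Polynomial.coeff_mul]
  refine Finset.sum_congr rfl fun p _ => ?_
  rw [dL_coeff, Lp_coeff]; unfold wt; ring

private theorem coeffB (r j : ℕ) : (HP r * HP r).coeff j =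
    ∑ p ∈ antidiagonal j, wt r p * (((r : ℝ) - p.1) * ((r : ℝ) - p.2)) := by
  rw [Polynomial.coeff_mul]
  refine Finset.sum_congr rfl fun p _ => ?_
  rw [HP_coeff, HP_coeff]; unfold wt; ring

private theorem coeffD (r j : ℕ) : (HP r * Lp r).coeff j =
    ∑ p ∈ antidiagonal j, wt r p * ((r : ℝ) - p.1) := by
  rw [Polynomial.coeff_mul]
  refine Finset.sum_congr rfl fun p _ => ?_
  rw [HP_coeff, Lp_coeff]; unfold wt; ring

/-- The identity `HP_id` in coefficients. -/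
private theorem id_sum (r j : ℕ) : ∑ p ∈ antidiagonal j, wt r p *
    ((r : ℝ) * ((r : ℝ) - p.1) ^ 3 - r * ((r : ℝ) - p.1) ^ 2
      - r * (((r : ℝ) - p.1) ^ 2 * ((r : ℝ) - p.2))
      - ((r : ℝ) - p.1) ^ 3 * ((r : ℝ) - p.2) + ((r : ℝ) - p.1) ^ 2 * ((r : ℝ) - p.2)
      + ((r : ℝ) - p.1) ^ 2 * ((r : ℝ) - p.2) ^ 2) = 0 := by
  have h := congrArg (fun P : Polynomial ℝ => P.coeff j) (HP_id r)
  simp only [Polynomial.coeff_add, Polynomial.coeff_sub, Polynomial.coeff_zero, mul_assoc,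
    Polynomial.coeff_C_mul] at h
  rw [Polynomial.coeff_mul, Polynomial.coeff_mul, Polynomial.coeff_mul, Polynomial.coeff_mul,
    Finset.mul_sum, Finset.mul_sum, ← Finset.sum_sub_distrib, ← Finset.sum_sub_distrib,
    ← Finset.sum_add_distrib] at h
  rw [← h]
  refine Finset.sum_congr rfl fun p _ => ?_
  rw [dH_coeff, dL_coeff, dL_coeff, HP_coeff, Lp_coeff]
  unfold wt
  ring

/-- The basic identity (II) and the three coefficients. -/
private theorem key (r j : ℕ) : ∃ W U V s : ℝ, s = 2 * (r : ℝ) - j ∧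
    W = ∑ p ∈ antidiagonal j, wt r p ∧
    U = ∑ p ∈ antidiagonal j, wt r p * (((r : ℝ) - p.1) - ((r : ℝ) - p.2)) ^ 2 ∧
    V = ∑ p ∈ antidiagonal j, wt r p *
      ((((r : ℝ) - p.1) - ((r : ℝ) - p.2)) ^ 2 * (((r : ℝ) - p.1) * ((r : ℝ) - p.2))) ∧
    (r * s - r / 2 - s / 4) * U - V = s ^ 2 * (2 * r - s) / 4 * W ∧
    U = 2 * (((Lp r).derivative * Lp r).coeff j - (HP r * HP r).coeff j) ∧
    s * W = 2 * (HP r * Lp r).coeff j ∧
    s ^ 2 * W = 2 * (((Lp r).derivative * Lp r).coeff j + (HP r * HP r).coeff j) := by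
  have hs : ∀ p ∈ antidiagonal j, ((r : ℝ) - p.1) + ((r : ℝ) - p.2) = 2 * (r : ℝ) - j := by
    intro p hp
    rw [Finset.HasAntidiagonal.mem_antidiagonal] at hp
    have : (j : ℝ) = p.1 + p.2 := by exact_mod_cast hp.symm
    rw [this]; ring
  refine ⟨_, _, _, _, rfl, rfl, rfl, rfl, ?_, ?_, ?_, ?_⟩
  · have h1 := id_sum r j
    have h2 := sym_sum r j (fun x y => (r : ℝ) * x ^ 3 - r * x ^ 2
      - r * (x ^ 2 * y) - x ^ 3 * y + x ^ 2 * y + x ^ 2 * y ^ 2)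
    have h3 : ∑ p ∈ antidiagonal j, wt r p *
        ((r : ℝ) * ((r : ℝ) - p.2) ^ 3 - r * ((r : ℝ) - p.2) ^ 2
      - r * (((r : ℝ) - p.2) ^ 2 * ((r : ℝ) - p.1))
      - ((r : ℝ) - p.2) ^ 3 * ((r : ℝ) - p.1) + ((r : ℝ) - p.2) ^ 2 * ((r : ℝ) - p.1)
      + ((r : ℝ) - p.2) ^ 2 * ((r : ℝ) - p.1) ^ 2) = 0 := by
      rw [← h2]; exact h1
    rw [Finset.mul_sum, Finset.mul_sum, ← Finset.sum_sub_distrib, ← sub_eq_zero,
      ← Finset.sum_sub_distrib]
    have h4 : ∀ p ∈ antidiagonal j,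
        (r * (2 * (r : ℝ) - j) - r / 2 - (2 * (r : ℝ) - j) / 4) *
          (wt r p * (((r : ℝ) - p.1) - ((r : ℝ) - p.2)) ^ 2) -
          wt r p * ((((r : ℝ) - p.1) - ((r : ℝ) - p.2)) ^ 2 *
            (((r : ℝ) - p.1) * ((r : ℝ) - p.2))) -
          (2 * (r : ℝ) - j) ^ 2 * (2 * r - (2 * (r : ℝ) - j)) / 4 * wt r p =
        wt r p *
    ((r : ℝ) * ((r : ℝ) - p.1) ^ 3 - r * ((r : ℝ) - p.1) ^ 2
      - r * (((r : ℝ) - p.1) ^ 2 * ((r : ℝ) - p.2))
      - ((r : ℝ) - p.1) ^ 3 * ((r : ℝ) - p.2) + ((r : ℝ) - p.1) ^ 2 * ((r : ℝ) - p.2)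
      + ((r : ℝ) - p.1) ^ 2 * ((r : ℝ) - p.2) ^ 2) + wt r p *
        ((r : ℝ) * ((r : ℝ) - p.2) ^ 3 - r * ((r : ℝ) - p.2) ^ 2
      - r * (((r : ℝ) - p.2) ^ 2 * ((r : ℝ) - p.1))
      - ((r : ℝ) - p.2) ^ 3 * ((r : ℝ) - p.1) + ((r : ℝ) - p.2) ^ 2 * ((r : ℝ) - p.1)
      + ((r : ℝ) - p.2) ^ 2 * ((r : ℝ) - p.1) ^ 2) := by
      intro p hp
      rw [← hs p hp]
      ring
    rw [Finset.sum_congr rfl h4, Finset.sum_add_distrib, h1, h3, add_zero]
  · rw [coeffA, coeffB]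
    have h2 := sym_sum r j (fun x _ => x ^ 2)
    have h3 : 2 * ∑ p ∈ antidiagonal j, wt r p * ((r : ℝ) - p.1) ^ 2 =
        ∑ p ∈ antidiagonal j, (wt r p * ((r : ℝ) - p.1) ^ 2 + wt r p * ((r : ℝ) - p.2) ^ 2) := by
      rw [Finset.sum_add_distrib, ← h2]; ring
    rw [mul_sub, h3, Finset.mul_sum, ← Finset.sum_sub_distrib]
    exact Finset.sum_congr rfl fun p _ => by ring
  · rw [coeffD]
    have h2 := sym_sum r j (fun x _ => x)
    have h3 : 2 * ∑ p ∈ antidiagonal j, wt r p * ((r : ℝ) - p.1) =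
        ∑ p ∈ antidiagonal j, (wt r p * ((r : ℝ) - p.1) + wt r p * ((r : ℝ) - p.2)) := by
      rw [Finset.sum_add_distrib, ← h2]; ring
    rw [h3, Finset.mul_sum]
    exact Finset.sum_congr rfl fun p hp => by rw [← hs p hp]; ring
  · rw [coeffA, coeffB]
    have h2 := sym_sum r j (fun x _ => x ^ 2)
    have h3 : 2 * ∑ p ∈ antidiagonal j, wt r p * ((r : ℝ) - p.1) ^ 2 =
        ∑ p ∈ antidiagonal j, (wt r p * ((r : ℝ) - p.1) ^ 2 + wt r p * ((r : ℝ) - p.2) ^ 2) := by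
      rw [Finset.sum_add_distrib, ← h2]; ring
    rw [mul_add, h3, Finset.mul_sum, Finset.mul_sum, ← Finset.sum_add_distrib]
    exact Finset.sum_congr rfl fun p hp => by rw [← hs p hp]; ring

private theorem big_zero {r j : ℕ} (h : 2 * r ≤ j) : ((Lp r).derivative * Lp r).coeff j = 0 ∧
    (HP r * HP r).coeff j = 0 ∧ (HP r * Lp r).coeff j = 0 := by
  have hz : ∀ p ∈ antidiagonal j, wt r p * ((r : ℝ) - p.1) = 0 := by
    intro p hp
    rw [Finset.HasAntidiagonal.mem_antidiagonal] at hp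
    by_cases h1 : p.1 ≤ r ∧ p.2 ≤ r
    · have : p.1 = r := by omega
      rw [this]; ring
    · rw [wt_zero h1, zero_mul]
  refine ⟨?_, ?_, ?_⟩
  · rw [coeffA]
    exact Finset.sum_eq_zero fun p hp => by
      rw [sq, ← mul_assoc, hz p hp, zero_mul]
  · rw [coeffB]
    exact Finset.sum_eq_zero fun p hp => by
      rw [← mul_assoc, hz p hp, zero_mul]
  · rw [coeffD]
    exact Finset.sum_eq_zero fun p hp => hz p hp

private theorem nonnegUVW (r j : ℕ) : 0 ≤ ∑ p ∈ antidiagonal j, wt r p ∧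
    0 ≤ ∑ p ∈ antidiagonal j, wt r p * (((r : ℝ) - p.1) - ((r : ℝ) - p.2)) ^ 2 ∧
    0 ≤ ∑ p ∈ antidiagonal j, wt r p *
      ((((r : ℝ) - p.1) - ((r : ℝ) - p.2)) ^ 2 * (((r : ℝ) - p.1) * ((r : ℝ) - p.2))) := by
  refine ⟨Finset.sum_nonneg fun p _ => wt_nonneg r p,
    Finset.sum_nonneg fun p _ => mul_nonneg (wt_nonneg r p) (sq_nonneg _),
    Finset.sum_nonneg fun p _ => ?_⟩
  by_cases h1 : p.1 ≤ r ∧ p.2 ≤ r
  · have a1 : (p.1 : ℝ) ≤ r := by exact_mod_cast h1.1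
    have a2 : (p.2 : ℝ) ≤ r := by exact_mod_cast h1.2
    exact mul_nonneg (wt_nonneg r p) (mul_nonneg (sq_nonneg _)
      (mul_nonneg (by linarith) (by linarith)))
  · rw [wt_zero h1, zero_mul]

theorem two_low (r j : ℕ) : (8 * (r : ℝ) - 2) * (HP r * HP r).coeff j +
    4 * r * (HP r * Lp r).coeff j ≤ (8 * r + 2) * ((Lp r).derivative * Lp r).coeff j := by
  by_cases hj : 2 * r ≤ j
  · obtain ⟨h1, h2, h3⟩ := big_zero hj
    rw [h1, h2, h3]; simp
  obtain ⟨W, U, V, s, hs, hW, hU, hV, h2, h3, h4, h5⟩ := key r j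
  obtain ⟨w0, u0, v0⟩ := nonnegUVW r j
  rw [← hW] at w0
  rw [← hU] at u0
  rw [← hV] at v0
  have hs0 : 0 < s := by
    have : (j : ℝ) < 2 * r := by exact_mod_cast (not_le.mp hj)
    rw [hs]; linarith
  have hr0 : (0 : ℝ) ≤ r := Nat.cast_nonneg r
  have h6 : s * (s * (2 * r - s) / 4 * W) ≤ s * (r * U) := by
    have e1 : 0 ≤ (r / 2 + s / 4) * U := mul_nonneg (by positivity) u0
    nlinarith [e1, v0, h2]
  have h7 : s * (2 * r - s) / 4 * W ≤ r * U := le_of_mul_le_mul_left h6 hs0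
  have h8 : s * (2 * r - s) / 4 * W = (2 * r * (s * W) - s ^ 2 * W) / 4 := by ring
  rw [h8, h4, h5, h3] at h7
  nlinarith [h7]

theorem two_up (r j : ℕ) : ((Lp r).derivative * Lp r).coeff j ≤
    (HP r * HP r).coeff j + 2 * (HP r * Lp r).coeff j := by
  by_cases hj : 2 * r ≤ j
  · obtain ⟨h1, h2, h3⟩ := big_zero hj
    rw [h1, h2, h3]; simp
  obtain ⟨W, U, V, s, hs, hW, hU, hV, h2, h3, h4, h5⟩ := key r j
  obtain ⟨w0, u0, v0⟩ := nonnegUVW r j
  rw [← hW] at w0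
  rw [← hU] at u0
  rw [← hV] at v0
  have hs0 : 0 < s := by
    have : (j : ℝ) < 2 * r := by exact_mod_cast (not_le.mp hj)
    rw [hs]; linarith
  have hj0 : (0 : ℝ) ≤ j := Nat.cast_nonneg j
  have hs2 : s ≤ 2 * r := by rw [hs]; linarith
  have hsum : ∀ p ∈ antidiagonal j, ((r : ℝ) - p.1) + ((r : ℝ) - p.2) = s := by
    intro p hp
    rw [Finset.HasAntidiagonal.mem_antidiagonal] at hp
    have : (j : ℝ) = p.1 + p.2 := by exact_mod_cast hp.symm
    rw [hs, this]; ring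
  have claim : U ≤ 2 * s * W := by
    by_cases h6 : s ≤ 2
    · rw [hU, hW, Finset.mul_sum]
      refine Finset.sum_le_sum fun p hp => ?_
      by_cases h1 : p.1 ≤ r ∧ p.2 ≤ r
      · have a1 : (p.1 : ℝ) ≤ r := by exact_mod_cast h1.1
        have a2 : (p.2 : ℝ) ≤ r := by exact_mod_cast h1.2
        have a3 := hsum p hp
        have a4 : (((r : ℝ) - p.1) - ((r : ℝ) - p.2)) ^ 2 ≤ 2 * s := by
          have a5 : (((r : ℝ) - p.1) - ((r : ℝ) - p.2)) ^ 2 ≤ s ^ 2 := by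
            rw [← a3]
            nlinarith [mul_nonneg (sub_nonneg.mpr a1) (sub_nonneg.mpr a2)]
          nlinarith
        calc wt r p * (((r : ℝ) - p.1) - ((r : ℝ) - p.2)) ^ 2 ≤ wt r p * (2 * s) :=
              mul_le_mul_of_nonneg_left a4 (wt_nonneg r p)
          _ = 2 * s * wt r p := by ring
      · rw [wt_zero h1]; simp
    · rw [not_le] at h6
      have hV2 : V ≤ s ^ 2 / 4 * U := by
        rw [hV, hU, Finset.mul_sum]
        refine Finset.sum_le_sum fun p hp => ?_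
        have a3 := hsum p hp
        have a4 : ((r : ℝ) - p.1) * ((r : ℝ) - p.2) ≤ s ^ 2 / 4 := by
          rw [← a3]
          nlinarith [sq_nonneg (((r : ℝ) - p.1) - ((r : ℝ) - p.2))]
        calc wt r p * ((((r : ℝ) - p.1) - ((r : ℝ) - p.2)) ^ 2 *
              (((r : ℝ) - p.1) * ((r : ℝ) - p.2)))
            = wt r p * (((r : ℝ) - p.1) - ((r : ℝ) - p.2)) ^ 2 *
                (((r : ℝ) - p.1) * ((r : ℝ) - p.2)) := by ring
          _ ≤ wt r p * (((r : ℝ) - p.1) - ((r : ℝ) - p.2)) ^ 2 * (s ^ 2 / 4) :=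
              mul_le_mul_of_nonneg_left a4 (mul_nonneg (wt_nonneg r p) (sq_nonneg _))
          _ = _ := by ring
      have hk : 0 < r * s - s ^ 2 / 4 - r / 2 - s / 4 := by nlinarith
      have hk2 : s ^ 2 * (2 * r - s) / 4 ≤ 2 * s * (r * s - s ^ 2 / 4 - r / 2 - s / 4) := by
        have e1 : 0 ≤ 6 * r * s - s ^ 2 - 4 * r - 2 * s := by nlinarith
        have e2 : 0 ≤ s * (6 * r * s - s ^ 2 - 4 * r - 2 * s) := mul_nonneg hs0.le e1
        nlinarith [e2]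
      have h7 : (r * s - s ^ 2 / 4 - r / 2 - s / 4) * U ≤
          (r * s - s ^ 2 / 4 - r / 2 - s / 4) * (2 * s * W) := by
        calc (r * s - s ^ 2 / 4 - r / 2 - s / 4) * U
            = (r * s - r / 2 - s / 4) * U - s ^ 2 / 4 * U := by ring
          _ ≤ (r * s - r / 2 - s / 4) * U - V := by linarith
          _ = s ^ 2 * (2 * r - s) / 4 * W := h2
          _ ≤ 2 * s * (r * s - s ^ 2 / 4 - r / 2 - s / 4) * W :=
              mul_le_mul_of_nonneg_right hk2 w0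
          _ = _ := by ring
      exact le_of_mul_le_mul_left h7 hk
  have e : 2 * s * W = 2 * (s * W) := by ring
  rw [e, h4, h3] at claim
  linarith

end Pool.Agent.Lib.MP_eeed5c_coX
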