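import Pool.Agent.Lib.MP_eeed5c_co_X.XF
import Pool.Agent.Lib.MP_eeed5c_co_X.XB
import Pool.Agent.Lib.MP_eeed5c_co_X.XC1

/-!
# The coefficients of first order

PROOFS. `K = Lp r`, `H = HP r`, `P = K^q`, `T r q j = P.coeff j`.
* `g1`: `r^2 Kab (r-1) (r-1) = K'`: `r^2 C(r-1,j)^2 j! = (r-j)^2 C(r,j)^2 j!` (`r C(r-1,j) = (r-j) C(r,j)`, `Nat.choose_mul_succ_eq`). `g2`: `r Kab (r-1) r = H`.
  `g3`: `r (r-1) Kab (r-2) r = K' - H`: `r (r-1) C(r-2,j) = (r-j)(r-j-1) C(r,j)`.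
* `g4`: `(K^q)' = q K^(q-1) K'`. `g5`: `X (K^q)' = q K^(q-1) X K' = q K^(q-1) (r K - H)` (`HP_one`), i.e. `q H K^(q-1) = q r P - X P'`.
* `g6`: apply `n - X d/dX` (`n = q r`) to `g5`: `q (n - X d/dX)(H K^(q-1))`, `X (H K^(q-1))' = (X H') K^(q-1) + (q-1) H K^(q-2) (X K')
  = (r H - K') K^(q-1) + (q-1) H K^(q-2) (r K - H)`, so `(n - X d/dX)(H K^(q-1)) = K' K^(q-1) + (q-1) H^2 K^(q-2)`; the coefficient of `X^j` of
  `(n - X d/dX)^2 P` is `(n-j)^2 T r q j`.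
* `g7`: `prod_cs` for two factors (or directly): `(H.coeff i)^2 = K'.coeff i * K.coeff i` and the same for `K^(q-1)` with itself.
* `g8`, `g9`: `two_low`, `two_up` times `K^(q-2)` (nonnegative coefficients; `K^(q-1) = K * K^(q-2)` for `q ≥ 2`).
-/

set_option autoImplicit false

namespace Pool.Agent.Lib.MP_eeed5c_coX

open Finset Pool.Agent.Lib.MP_eeed5c_co Pool.Agent.Lib.MP_eeed5c_coT

private theorem XG_ch (n k : ℕ) :
    ((n : ℝ) + 1) * (n.choose k : ℝ) = ((n : ℝ) + 1 - k) * ((n + 1).choose k : ℝ) := by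
  rcases Nat.lt_or_ge (n + 1) k with h | h
  · rw [Nat.choose_eq_zero_of_lt h, Nat.choose_eq_zero_of_lt (by omega)]
    simp
  · have h1 := Nat.choose_mul_succ_eq n k
    have h2 := congrArg (fun m : ℕ => (m : ℝ)) h1
    push_cast [Nat.cast_sub h] at h2
    linarith

private theorem XG_cd (r j : ℕ) : (Lp r).derivative.coeff j = ((r : ℝ) - j) ^ 2 * ell r j := by
  rw [Polynomial.coeff_derivative, Lp_coeff, ← ell_succ]
  ring

private theorem XG_th (F : Polynomial ℝ) (j : ℕ) :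
    (Polynomial.X * F.derivative).coeff j = (j : ℝ) * F.coeff j := by
  rcases Nat.eq_zero_or_pos j with rfl | hj
  · rw [Polynomial.coeff_X_mul_zero]
    simp
  · obtain ⟨i, rfl⟩ : ∃ i, j = i + 1 := ⟨j - 1, by omega⟩
    rw [Polynomial.coeff_X_mul, Polynomial.coeff_derivative]
    push_cast
    ring

theorem g1 {r : ℕ} (hr : 1 ≤ r) : Polynomial.C ((r : ℝ) ^ 2) * Kab (r - 1) (r - 1) =
    (Lp r).derivative := by
  obtain ⟨s, rfl⟩ : ∃ s, r = s + 1 := ⟨r - 1, by omega⟩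
  ext j
  rw [Polynomial.coeff_C_mul, Kab_coeff, XG_cd, Nat.add_sub_cancel]
  unfold ell
  have h := XG_ch s j
  push_cast
  calc ((s : ℝ) + 1) ^ 2 * ((s.choose j : ℝ) * (s.choose j : ℝ) * (j.factorial : ℝ))
      = (((s : ℝ) + 1) * (s.choose j : ℝ)) ^ 2 * (j.factorial : ℝ) := by ring
    _ = _ := by rw [h]; ring

theorem g2 {r : ℕ} (hr : 1 ≤ r) : Polynomial.C (r : ℝ) * Kab (r - 1) r = HP r := by
  obtain ⟨s, rfl⟩ : ∃ s, r = s + 1 := ⟨r - 1, by omega⟩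
  ext j
  rw [Polynomial.coeff_C_mul, Kab_coeff, HP_coeff, Nat.add_sub_cancel]
  unfold ell
  have h := XG_ch s j
  push_cast
  calc ((s : ℝ) + 1) * ((s.choose j : ℝ) * ((s + 1).choose j : ℝ) * (j.factorial : ℝ))
      = (((s : ℝ) + 1) * (s.choose j : ℝ)) * ((s + 1).choose j : ℝ) * (j.factorial : ℝ) := by ring
    _ = _ := by rw [h]; ring

theorem g3 {r : ℕ} (hr : 2 ≤ r) : Polynomial.C ((r : ℝ) * ((r : ℝ) - 1)) * Kab (r - 2) r =
    (Lp r).derivative - HP r := by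
  obtain ⟨s, rfl⟩ : ∃ s, r = s + 2 := ⟨r - 2, by omega⟩
  ext j
  rw [Polynomial.coeff_C_mul, Kab_coeff, Polynomial.coeff_sub, XG_cd, HP_coeff, Nat.add_sub_cancel]
  unfold ell
  have h := XG_ch s j
  have h' := XG_ch (s + 1) j
  have e : s + 1 + 1 = s + 2 := rfl
  rw [e] at h'
  push_cast at h' ⊢
  calc ((s : ℝ) + 2) * ((s : ℝ) + 2 - 1) *
        ((s.choose j : ℝ) * ((s + 2).choose j : ℝ) * (j.factorial : ℝ))
      = ((s : ℝ) + 1 + 1) * (((s : ℝ) + 1) * (s.choose j : ℝ)) *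
        ((s + 2).choose j : ℝ) * (j.factorial : ℝ) := by ring
    _ = ((s : ℝ) + 1 - j) * (((s : ℝ) + 1 + 1) * ((s + 1).choose j : ℝ)) *
        ((s + 2).choose j : ℝ) * (j.factorial : ℝ) := by rw [h]; ring
    _ = _ := by rw [h']; ring

theorem g4 {r q : ℕ} (hq : 1 ≤ q) (j : ℕ) :
    (q : ℝ) * ((Lp r).derivative * Lp r ^ (q - 1)).coeff j = ((j : ℝ) + 1) * T r q (j + 1) := by
  obtain ⟨s, rfl⟩ : ∃ s, q = s + 1 := ⟨q - 1, by omega⟩
  have h := congrArg (fun P => Polynomial.coeff P j) (Polynomial.derivative_pow_succ (Lp r) s)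
  rw [Polynomial.coeff_derivative, mul_assoc, Polynomial.coeff_C_mul] at h
  unfold T
  rw [Nat.add_sub_cancel, mul_comm (Lp r).derivative]
  push_cast
  rw [← h]
  ring

theorem g5 {r q : ℕ} (hq : 1 ≤ q) (j : ℕ) :
    (q : ℝ) * (HP r * Lp r ^ (q - 1)).coeff j = ((q : ℝ) * r - j) * T r q j := by
  obtain ⟨s, rfl⟩ : ∃ s, q = s + 1 := ⟨q - 1, by omega⟩
  have e0 : HP r = Polynomial.C (r : ℝ) * Lp r - Polynomial.X * (Lp r).derivative := by
    rw [HP_one]; ring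
  have e : HP r * Lp r ^ (s + 1 - 1) = Polynomial.C (r : ℝ) * (Lp r) ^ (s + 1) -
      Polynomial.X * ((Lp r).derivative * Lp r ^ s) := by
    rw [e0, Nat.add_sub_cancel]
    ring
  have h2 : ((s : ℝ) + 1) * (Polynomial.X * ((Lp r).derivative * Lp r ^ s)).coeff j =
      (j : ℝ) * T r (s + 1) j := by
    have h := congrArg (fun P => Polynomial.coeff (Polynomial.X * P) j)
      (Polynomial.derivative_pow_succ (Lp r) s)
    rw [XG_th] at h
    unfold T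
    rw [h]
    have e1 : Polynomial.X * (Polynomial.C ((s : ℝ) + 1) * Lp r ^ s * Polynomial.derivative (Lp r)) =
        Polynomial.C ((s : ℝ) + 1) * (Polynomial.X * ((Lp r).derivative * Lp r ^ s)) := by ring
    rw [e1, Polynomial.coeff_C_mul]
  rw [e, Polynomial.coeff_sub, Polynomial.coeff_C_mul]
  push_cast
  rw [mul_sub, h2]
  unfold T
  ring

private theorem XG_six (r s j : ℕ) :
    ((Lp r).derivative * Lp r ^ (s + 1)).coeff j + ((s : ℝ) + 1) * (HP r * HP r * Lp r ^ s).coeff j =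
      (((s : ℝ) + 2) * r - j) * (HP r * Lp r ^ (s + 1)).coeff j := by
  have h1 := HP_one r
  have h2 := HP_two r
  have h3 : Polynomial.X * (HP r * Lp r ^ (s + 1)).derivative =
      (Polynomial.C (r : ℝ) * HP r - (Lp r).derivative) * Lp r ^ (s + 1) +
        Polynomial.C ((s : ℝ) + 1) * (HP r * Lp r ^ s * (Polynomial.C (r : ℝ) * Lp r - HP r)) := by
    rw [← h1, ← h2, Polynomial.derivative_mul, Polynomial.derivative_pow_succ]
    ring
  have h4 : (Polynomial.C (r : ℝ) * HP r - (Lp r).derivative) * Lp r ^ (s + 1) +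
        Polynomial.C ((s : ℝ) + 1) * (HP r * Lp r ^ s * (Polynomial.C (r : ℝ) * Lp r - HP r)) =
      Polynomial.C (r : ℝ) * (HP r * Lp r ^ (s + 1)) - (Lp r).derivative * Lp r ^ (s + 1) +
        Polynomial.C ((s : ℝ) + 1) * (Polynomial.C (r : ℝ) * (HP r * Lp r ^ (s + 1)) -
          HP r * HP r * Lp r ^ s) := by ring
  have h5 := congrArg (fun P => Polynomial.coeff P j) (h3.trans h4)
  rw [XG_th, Polynomial.coeff_add, Polynomial.coeff_sub, Polynomial.coeff_C_mul,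
    Polynomial.coeff_C_mul, Polynomial.coeff_sub, Polynomial.coeff_C_mul] at h5
  linarith

theorem g6 {r q : ℕ} (hq : 2 ≤ q) (j : ℕ) :
    (q : ℝ) * ((Lp r).derivative * Lp r ^ (q - 1)).coeff j +
      (q : ℝ) * ((q : ℝ) - 1) * (HP r * HP r * Lp r ^ (q - 2)).coeff j =
      ((q : ℝ) * r - j) ^ 2 * T r q j := by
  have h5 := g5 (r := r) (q := q) (by omega) j
  obtain ⟨s, rfl⟩ : ∃ s, q = s + 2 := ⟨q - 2, by omega⟩
  have e : s + 2 - 1 = s + 1 := rfl
  rw [e] at h5 ⊢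
  rw [Nat.add_sub_cancel]
  have h6 := XG_six r s j
  push_cast at h5 ⊢
  have e2 : ((s : ℝ) + 2) * ((Lp r).derivative * Lp r ^ (s + 1)).coeff j +
      ((s : ℝ) + 2) * ((s : ℝ) + 2 - 1) * (HP r * HP r * Lp r ^ s).coeff j =
      ((s : ℝ) + 2) * (((Lp r).derivative * Lp r ^ (s + 1)).coeff j +
        ((s : ℝ) + 1) * (HP r * HP r * Lp r ^ s).coeff j) := by ring
  rw [e2, h6]
  calc ((s : ℝ) + 2) * ((((s : ℝ) + 2) * r - j) * (HP r * Lp r ^ (s + 1)).coeff j)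
      = (((s : ℝ) + 2) * r - j) * (((s : ℝ) + 2) * (HP r * Lp r ^ (s + 1)).coeff j) := by ring
    _ = _ := by rw [h5]; ring

theorem g7 {r q : ℕ} (hq : 1 ≤ q) (j : ℕ) : ((HP r * Lp r ^ (q - 1)).coeff j) ^ 2 ≤
    ((Lp r).derivative * Lp r ^ (q - 1)).coeff j * T r q j := by
  obtain ⟨s, rfl⟩ : ∃ s, q = s + 1 := ⟨q - 1, by omega⟩
  unfold T
  rw [Nat.add_sub_cancel, pow_succ' (Lp r) s, Polynomial.coeff_mul, Polynomial.coeff_mul,
    Polynomial.coeff_mul]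
  have hN := NN_pow (NN_Lp r) s
  apply Finset.sum_sq_le_sum_mul_sum_of_sq_le_mul
  · intro i _
    rw [XG_cd]
    exact mul_nonneg (mul_nonneg (sq_nonneg _) (ell_nonneg r _)) (hN _)
  · intro i _
    exact mul_nonneg (NN_Lp r _) (hN _)
  · intro i _
    rw [XG_cd, HP_coeff, Lp_coeff]
    apply le_of_eq
    ring

theorem g8 {r q : ℕ} (hq : 2 ≤ q) (j : ℕ) :
    (8 * (r : ℝ) - 2) * (HP r * HP r * Lp r ^ (q - 2)).coeff j +
      4 * r * (HP r * Lp r ^ (q - 1)).coeff j ≤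
      (8 * r + 2) * ((Lp r).derivative * Lp r ^ (q - 1)).coeff j := by
  obtain ⟨s, rfl⟩ : ∃ s, q = s + 2 := ⟨q - 2, by omega⟩
  have h1 : CLe (Polynomial.C (8 * (r : ℝ) - 2) * (HP r * HP r) +
      Polynomial.C (4 * (r : ℝ)) * (HP r * Lp r))
      (Polynomial.C (8 * (r : ℝ) + 2) * ((Lp r).derivative * Lp r)) := by
    intro m
    rw [Polynomial.coeff_add, Polynomial.coeff_C_mul, Polynomial.coeff_C_mul,
      Polynomial.coeff_C_mul]
    exact two_low r m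
  have h2 := CLe_mul_right h1 (NN_pow (NN_Lp r) s) j
  have e1 : (Polynomial.C (8 * (r : ℝ) - 2) * (HP r * HP r) +
      Polynomial.C (4 * (r : ℝ)) * (HP r * Lp r)) * Lp r ^ s =
      Polynomial.C (8 * (r : ℝ) - 2) * (HP r * HP r * Lp r ^ s) +
        Polynomial.C (4 * (r : ℝ)) * (HP r * Lp r ^ (s + 1)) := by ring
  have e2 : Polynomial.C (8 * (r : ℝ) + 2) * ((Lp r).derivative * Lp r) * Lp r ^ s =
      Polynomial.C (8 * (r : ℝ) + 2) * ((Lp r).derivative * Lp r ^ (s + 1)) := by ring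
  rw [e1, e2, Polynomial.coeff_add, Polynomial.coeff_C_mul, Polynomial.coeff_C_mul,
    Polynomial.coeff_C_mul] at h2
  have e : s + 2 - 1 = s + 1 := rfl
  rw [e, Nat.add_sub_cancel]
  exact h2

theorem g9 {r q : ℕ} (hq : 2 ≤ q) (j : ℕ) :
    ((Lp r).derivative * Lp r ^ (q - 1)).coeff j ≤
      (HP r * HP r * Lp r ^ (q - 2)).coeff j + 2 * (HP r * Lp r ^ (q - 1)).coeff j := by
  obtain ⟨s, rfl⟩ : ∃ s, q = s + 2 := ⟨q - 2, by omega⟩
  have h1 : CLe ((Lp r).derivative * Lp r)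
      (HP r * HP r + Polynomial.C (2 : ℝ) * (HP r * Lp r)) := by
    intro m
    rw [Polynomial.coeff_add, Polynomial.coeff_C_mul]
    exact two_up r m
  have h2 := CLe_mul_right h1 (NN_pow (NN_Lp r) s) j
  have e1 : (HP r * HP r + Polynomial.C (2 : ℝ) * (HP r * Lp r)) * Lp r ^ s =
      HP r * HP r * Lp r ^ s + Polynomial.C (2 : ℝ) * (HP r * Lp r ^ (s + 1)) := by ring
  have e2 : (Lp r).derivative * Lp r * Lp r ^ s = (Lp r).derivative * Lp r ^ (s + 1) := by ring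
  rw [e1, e2, Polynomial.coeff_add, Polynomial.coeff_C_mul] at h2
  have e : s + 2 - 1 = s + 1 := rfl
  rw [e, Nat.add_sub_cancel]
  exact h2

end Pool.Agent.Lib.MP_eeed5c_coX
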