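import Mathlib

/-!
# The numerical inequality

PROOF. `s2 = S(h1^2)`, `s11 = S(h1 h2)`, `sh = ν S1`, `ν = (n - k + 1)/q`, `μ = (n-k)/q`, `n = q r`.
* `6 k ≥ n`: `n - k ≤ 5 n/6`, `ν ≤ 5 r/6 + 1/2 ≤ 0.8344 r` (`r ≥ 1000`, `q ≥ 2`), `ν ≤ μ + 1/2`, `ν > 0`.
* (b) `s11 ≤ ν^2 S1`: `q s2 + q (q-1) s11 = q^2 ν^2 S1` and `s2 S1 ≥ ν^2 S1^2` gives `s2 ≥ ν^2 S1` (`S1 > 0`; if `S1 = 0` then by h6 and `s2, s11 ≥ 0`
  everything is zero, so `s2 = 0` and `P = 0`, trivial), so `q (q-1) s11 ≤ q (q-1) ν^2 S1`.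
* (c) with `E = 2 (s2 - s11)` (`= S(D^2)`): h8 is `4 r E ≥ 4 r ν S1 - (2 s2 + 2 s11)`, `2 s2 + 2 s11 = E + 4 s11 ≤ E + 4 ν^2 S1`, so `(4 r + 1) E ≥ 4 ν (r - ν) S1`.
* (d) `s2 = E/2 + s11 ≤ E/2 + ν^2 S1 ≤ E (1/2 + ν (4r+1)/(4 (r - ν))) ≤ E (1/2 + 6.05 ν)` since `r - ν ≥ 0.1656 r`.
* `res1`: `(s2 - s11)/r^2 = E/(2 r^2) ≥ s2/(r^2 (1 + 12.1 ν))`, `s2 = (k/q) P ≥ (r/6) P`, `1 + 12.1 ν ≤ 7.05 + 12.1 μ ≤ 12.1 (1 + μ)`, `6 * 12.1 ≤ 73`.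
* `res2`: h9: `s2 ≤ s11 + 2 ν S1 ≤ (2 ν + ν^2) S1`. `s2/r^2 - (s2 - sh)/(r(r-1)) = (r sh - s2)/(r^2 (r-1))`, `r sh - s2 ≥ s2 (r/(2+ν) - 1) = s2 (r-2-ν)/(2+ν) ≥ 0.16 r s2/(2+ν)`, and
  `0.16 r (r/6) P / (r^2 (r-1) (2+ν)) ≥ 0.16 P/(6 (r-1) (2.5 + μ)) ≥ P/(94 r (1+μ))`.
-/

set_option autoImplicit false

namespace Pool.Agent.Lib.MP_eeed5c_coX

theorem num_first {q r k : ℕ} {S1 sh s2 s11 P : ℝ} (hr : 1000 ≤ r) (hq : 2 ≤ q) (hk1 : 1 ≤ k)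
    (hk : k ≤ q * r) (h6k : q * r ≤ 6 * k) (hS1 : 0 ≤ S1) (hs2 : 0 ≤ s2) (hs11 : 0 ≤ s11)
    (hP : 0 ≤ P) (h4 : (q : ℝ) * s2 = k * P)
    (h5 : (q : ℝ) * sh = ((q : ℝ) * r - k + 1) * S1)
    (h6 : (q : ℝ) * s2 + (q : ℝ) * ((q : ℝ) - 1) * s11 = ((q : ℝ) * r - k + 1) ^ 2 * S1)
    (h7 : sh ^ 2 ≤ s2 * S1) (h8 : (8 * (r : ℝ) - 2) * s11 + 4 * r * sh ≤ (8 * r + 2) * s2)
    (h9 : s2 ≤ s11 + 2 * sh) :
    P / (73 * r * (1 + ((q : ℝ) * r - k) / q)) ≤ (s2 - s11) / (r : ℝ) ^ 2 ∧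
      P / (94 * r * (1 + ((q : ℝ) * r - k) / q)) ≤
        s2 / (r : ℝ) ^ 2 - (s2 - sh) / (r * ((r : ℝ) - 1)) := by
  have hR : (1000 : ℝ) ≤ r := by exact_mod_cast hr
  have hQ : (2 : ℝ) ≤ q := by exact_mod_cast hq
  have hK : (1 : ℝ) ≤ k := by exact_mod_cast hk1
  have hKn : (k : ℝ) ≤ q * r := by exact_mod_cast hk
  have h6K : (q : ℝ) * r ≤ 6 * k := by exact_mod_cast h6k
  generalize (r : ℝ) = R at *
  generalize (q : ℝ) = Q at *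
  generalize (k : ℝ) = K at *
  have hQ0 : 0 < Q := by linarith
  have hR0 : 0 < R := by linarith
  obtain ⟨μ, hμ⟩ : ∃ μ : ℝ, μ = (Q * R - K) / Q := ⟨_, rfl⟩
  have hμQ : Q * μ = Q * R - K := by rw [hμ]; field_simp
  have hμ0 : 0 ≤ μ := by rw [hμ]; exact div_nonneg (by linarith) hQ0.le
  rw [← hμ]
  obtain ⟨ν, hν⟩ : ∃ ν : ℝ, ν = μ + 1 / Q := ⟨_, rfl⟩
  have hνQ : Q * R - K + 1 = Q * ν := by
    rw [hν, mul_add, hμQ, mul_one_div_cancel hQ0.ne']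
  have hQ1 : 1 / Q ≤ 1 / 2 := one_div_le_one_div_of_le (by norm_num) hQ
  have hQ1' : 0 < 1 / Q := one_div_pos.2 hQ0
  have hν0 : 0 < ν := by rw [hν]; linarith
  have hνμ : ν ≤ μ + 1 / 2 := by rw [hν]; linarith
  have hμR : μ ≤ 5 * R / 6 := by
    have h1 : Q * μ ≤ Q * (5 * R / 6) := by rw [hμQ]; linarith
    exact le_of_mul_le_mul_left h1 hQ0
  have hνR : ν ≤ 8344 / 10000 * R := by linarith
  rw [hνQ] at h5 h6
  have h5' : sh = ν * S1 := by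
    have h1 : Q * sh = Q * (ν * S1) := by rw [h5]; ring
    exact mul_left_cancel₀ hQ0.ne' h1
  have h6' : s2 + (Q - 1) * s11 = Q * ν ^ 2 * S1 := by
    have h1 : Q * (s2 + (Q - 1) * s11) = Q * (Q * ν ^ 2 * S1) := by linarith
    exact mul_left_cancel₀ hQ0.ne' h1
  -- `s2` and `P`
  have hPs : R * P ≤ 6 * s2 := by
    have h1 : Q * (R * P) ≤ Q * (6 * s2) := by
      have h2 : Q * R * P ≤ 6 * K * P := mul_le_mul_of_nonneg_right h6K hP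
      linarith
    exact le_of_mul_le_mul_left h1 hQ0
  -- `s11 ≤ ν ^ 2 S1`
  have hb : s11 ≤ ν ^ 2 * S1 := by
    rcases eq_or_lt_of_le hS1 with h0 | hpos
    · rw [← h0, mul_zero] at h6' ⊢
      nlinarith [mul_nonneg (by linarith : 0 ≤ Q - 2) hs11]
    · have h1 : ν ^ 2 * S1 ≤ s2 := by
        rw [h5'] at h7
        have h2 : (ν ^ 2 * S1) * S1 ≤ s2 * S1 := by linarith
        exact le_of_mul_le_mul_right h2 hpos
      have h2 : (Q - 1) * s11 ≤ (Q - 1) * (ν ^ 2 * S1) := by linarith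
      exact le_of_mul_le_mul_left h2 (by linarith)
  have hsh0 : 0 ≤ sh := by rw [h5']; positivity
  have hbs : s11 ≤ ν * sh := by rw [h5']; linarith
  -- `D = s2 - s11`
  have hD0 : (2 * (4 * R + 1)) * (s2 - s11) ≥ 4 * R * sh - 4 * s11 := by linarith
  have hD1 : (2 * (4 * R + 1)) * (s2 - s11) ≥ 4 * (R - ν) * sh := by linarith
  have hD2 : (2 * (4 * R + 1)) * (s2 - s11) ≥ 4 * (1656 / 10000 * R) * sh := by
    have h1 : 4 * (1656 / 10000 * R) * sh ≤ 4 * (R - ν) * sh :=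
      mul_le_mul_of_nonneg_right (by linarith) hsh0
    linarith
  have hDnn : 0 ≤ s2 - s11 := by
    have h1 : 0 ≤ (2 * (4 * R + 1)) * (s2 - s11) := le_trans (by positivity) hD2
    exact nonneg_of_mul_nonneg_right h1 (by linarith)
  have hD3 : sh ≤ 121 / 10 * (s2 - s11) := by
    have h1 : (2 * (4 * R + 1)) * (s2 - s11) ≤ (2 * (4 + 1 / 1000) * R) * (s2 - s11) :=
      mul_le_mul_of_nonneg_right (by linarith) hDnn
    have h2 : R * (6624 / 10000 * sh) ≤ R * (2 * (4 + 1 / 1000) * (s2 - s11)) := by linarith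
    have h3 := le_of_mul_le_mul_left h2 hR0
    linarith
  have hd : s2 ≤ (1 + 121 / 10 * ν) * (s2 - s11) := by
    have h1 : ν * sh ≤ ν * (121 / 10 * (s2 - s11)) := mul_le_mul_of_nonneg_left hD3 hν0.le
    linarith
  have hd2 : (1 + 121 / 10 * ν) * (s2 - s11) ≤ (121 / 10 * (1 + μ)) * (s2 - s11) :=
    mul_le_mul_of_nonneg_right (by linarith) hDnn
  have hμ1 : 0 < 1 + μ := by linarith
  constructor
  · rw [div_le_div_iff₀ (by positivity) (by positivity)]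
    have h1 : R * P ≤ 73 * ((1 + μ) * (s2 - s11)) := by
      have h2 : 0 ≤ (1 + μ) * (s2 - s11) := mul_nonneg hμ1.le hDnn
      linarith
    have h2 := mul_le_mul_of_nonneg_left h1 hR0.le
    calc P * R ^ 2 = R * (R * P) := by ring
      _ ≤ R * (73 * ((1 + μ) * (s2 - s11))) := h2
      _ = (s2 - s11) * (73 * R * (1 + μ)) := by ring
  · have hR1 : 0 < R - 1 := by linarith
    have e1 : s2 / R ^ 2 - (s2 - sh) / (R * (R - 1)) = (R * sh - s2) / (R ^ 2 * (R - 1)) := by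
      field_simp
      ring
    rw [e1, div_le_div_iff₀ (by positivity) (by positivity)]
    have h1 : s2 ≤ (2 + ν) * sh := by linarith
    have h2 : R * s2 ≤ R * ((2 + ν) * sh) := mul_le_mul_of_nonneg_left h1 hR0.le
    have h3 : 16 / 100 * R * s2 ≤ (R - 2 - ν) * s2 := mul_le_mul_of_nonneg_right (by linarith) hs2
    have h4' : 16 / 100 * R * s2 ≤ (R * sh - s2) * (2 + ν) := by linarith
    have h5'' : 0 ≤ R * sh - s2 := by
      have h6'' : 0 ≤ (R * sh - s2) * (2 + ν) := le_trans (by positivity) h4'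
      exact nonneg_of_mul_nonneg_left h6'' (by linarith)
    have h6'' : (R * sh - s2) * (2 + ν) ≤ (R * sh - s2) * (25 / 10 * (1 + μ)) :=
      mul_le_mul_of_nonneg_left (by linarith) h5''
    have h7' : R * (R * P) ≤ R * (6 * s2) := mul_le_mul_of_nonneg_left hPs hR0.le
    have h8' : 16 / 600 * (R * (R * P)) ≤ (R * sh - s2) * (25 / 10 * (1 + μ)) := by linarith
    have h9' : 376 / 10 * R * (16 / 600 * (R * (R * P))) ≤ 376 / 10 * R * ((R * sh - s2) * (25 / 10 * (1 + μ))) :=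
      mul_le_mul_of_nonneg_left h8' (by positivity)
    have h10 : P * (R ^ 2 * (R - 1)) ≤ 376 / 10 * R * (16 / 600 * (R * (R * P))) := by
      have h11 : 0 ≤ P * R ^ 3 := by positivity
      have h12 : 0 ≤ P * R ^ 2 := by positivity
      nlinarith
    calc P * (R ^ 2 * (R - 1)) ≤ 376 / 10 * R * ((R * sh - s2) * (25 / 10 * (1 + μ))) := h10.trans h9'
      _ = (R * sh - s2) * (94 * R * (1 + μ)) := by ring

end Pool.Agent.Lib.MP_eeed5c_coX
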