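import Pool.Agent.Lib.MP_eeed5c_co_X.XD
import Pool.Agent.Lib.MP_eeed5c_co_X.XE
import Pool.Agent.Lib.MP_eeed5c_co_X.XG
import Pool.Agent.Lib.MP_eeed5c_co_X.XH

/-!
# Graphs close to a union of complete bipartite graphs

PROOFS. Let `K = KG c`, `n = q r`.
* `KG_card`: `mF_empty`, `mF_KG` with `W = ∅` (all counts zero), `Kab_self`, `Finset.prod_const`.
* `mF_X`: `e = s(a,b)` is an edge of `K`: `ev e` has one vertex in each of the two cells of one block; `mF_KG`, the other `q-1` factors are `Kab r r = Lp r`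
  (`Finset.mul_prod_erase`, `Finset.prod_const`).
* `mF_Y`: `y = s(a,b) ∈ Ys`, `a ≠ b` and not adjacent in `K`: either the blocks of `a`, `b` are different (factors `Kab (r-1) r` up to `Kab_symm` in two blocks), or both are
  in the same cell (one factor `Kab (r-2) r` up to symmetry).
* `first_order`: `num_first` with `S1 = T r q (k-1)`, `sh, s2, s11` the coefficients of `X^(k-1)` of `HP K^(q-1)`, `K' K^(q-1)`, `HP HP K^(q-2)` (`g4` to `g9` with `j = k-1`), `P = T r q k`;
  `mF_X`, `mF_Y`, `g1`, `g2`, `g3`: `mF K (ev e) (k-1) = s2/r^2`, `mF K (ev y) (k-1) = s11/r^2` or `(s2 - sh)/(r (r-1))`. So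
  `mF K (ev e) (k-1) - mF K (ev y) (k-1) ≥ P/(94 r (1+μ))` in both cases.
* `near`: `T = |Xs| = |Ys|` (`card_XY`). If `T = 0` then `G = K` (same edges), `KG_card`. Let `T ≥ 1`: `r ≥ 1000` (because `1 + μ ≥ 1`), `k ≥ 2`.
  `union_bound` for `k - 2` with `B = 9.04/r^2 * P` (`mF_H_le`), and `∑_{e ∈ X} mF - ∑_{y ∈ Y} mF ≥ T P/(94 r (1+μ))` (both sums have `T` terms and the terms of the first are all equal to `s2/r^2`).
  So `m_k(G) ≤ P - T P/(94 r (1+μ)) + 9.04 T^2 P/r^2`, and `9.04 T/r ≤ 9.04/(1000 (1+μ)) ≤ 1/(94 (1+μ))`.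
-/

set_option autoImplicit false

namespace Pool.Agent.Lib.MP_eeed5c_coX

open Finset Pool.Agent.Lib.MP_eeed5c_co Pool.Agent.Lib.MP_eeed5c_coT

section

variable {V : Type*} [Fintype V]

open scoped Classical in
private theorem XI_cnt_empty {q : ℕ} (c : V → Fin q × Fin 2) (z : Fin q × Fin 2) :
    cnt c ∅ z = 0 := by
  unfold cnt
  simp

open scoped Classical in
private theorem XI_cnt_pair {q : ℕ} (c : V → Fin q × Fin 2) {a b : V} (hab : a ≠ b)
    (z : Fin q × Fin 2) :
    cnt c (ev s(a, b)) z = (if c a = z then 1 else 0) + (if c b = z then 1 else 0) := by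
  unfold cnt
  have he : ev s(a, b) = {a, b} := by
    ext v
    simp only [ev, mem_filter, mem_univ, true_and, Sym2.mem_iff, mem_insert, mem_singleton]
  rw [he, Finset.card_filter, Finset.sum_pair hab]

private theorem XI_prod1 {q : ℕ} (f : Fin q → Polynomial ℝ) (K : Polynomial ℝ) (β : Fin q)
    (h : ∀ b, b ≠ β → f b = K) : ∏ b, f b = f β * K ^ (q - 1) := by
  classical
  rw [← Finset.mul_prod_erase univ f (mem_univ β)]
  congr 1
  rw [Finset.prod_congr rfl (fun b hb => h b (Finset.ne_of_mem_erase hb)), Finset.prod_const,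
    Finset.card_erase_of_mem (mem_univ β), Finset.card_univ, Fintype.card_fin]

private theorem XI_prod2 {q : ℕ} (f : Fin q → Polynomial ℝ) (K : Polynomial ℝ) (β γ : Fin q)
    (hβγ : β ≠ γ) (h : ∀ b, b ≠ β → b ≠ γ → f b = K) :
    ∏ b, f b = f β * f γ * K ^ (q - 2) := by
  classical
  have hγ : γ ∈ univ.erase β := mem_erase.2 ⟨hβγ.symm, mem_univ γ⟩
  rw [← Finset.mul_prod_erase univ f (mem_univ β), ← Finset.mul_prod_erase _ f hγ, mul_assoc]
  congr 2
  rw [Finset.prod_congr rfl (fun b hb => h b (Finset.ne_of_mem_erase (Finset.mem_of_mem_erase hb))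
      (Finset.ne_of_mem_erase hb)), Finset.prod_const,
    Finset.card_erase_of_mem hγ, Finset.card_erase_of_mem (mem_univ β), Finset.card_univ,
    Fintype.card_fin, Nat.sub_sub]

theorem KG_card {q r : ℕ} {c : V → Fin q × Fin 2} (hc : Cells r c) (k : ℕ) :
    ((mats (KG c) k).card : ℝ) = T r q k := by
  rw [← mF_empty, mF_KG hc]
  unfold T
  congr 1
  rw [Finset.prod_congr rfl (fun b _ => by rw [XI_cnt_empty, XI_cnt_empty, Nat.sub_zero, Kab_self] :
    ∀ b ∈ (univ : Finset (Fin q)), Kab (r - cnt c ∅ (b, 0)) (r - cnt c ∅ (b, 1)) = Lp r),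
    Finset.prod_const, Finset.card_univ, Fintype.card_fin]

theorem mF_X {q r : ℕ} {c : V → Fin q × Fin 2} (hc : Cells r c) {G : SimpleGraph V} {e : Sym2 V}
    (he : e ∈ Xs G c) (j : ℕ) :
    mF (KG c) (ev e) j = (Kab (r - 1) (r - 1) * Lp r ^ (q - 1)).coeff j := by
  classical
  have heK : e ∈ (KG c).edgeSet := by
    unfold Xs at he
    exact (mem_filter.1 he).2.1
  induction e using Sym2.ind with
  | _ a b =>
    rw [SimpleGraph.mem_edgeSet] at heK
    have hab : a ≠ b := heK.ne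
    obtain ⟨h1, h2⟩ := heK
    rw [mF_KG hc]
    congr 1
    rw [XI_prod1 _ (Lp r) (c a).1]
    · congr 1
      rw [XI_cnt_pair c hab, XI_cnt_pair c hab]
      rcases hca : c a with ⟨β, i⟩
      rcases hcb : c b with ⟨β', i'⟩
      rw [hca, hcb] at h1 h2
      simp only at h1 h2
      subst h1
      have key : ∀ i i' : Fin 2, i ≠ i' → (i = 0 ∧ i' = 1) ∨ (i = 1 ∧ i' = 0) := by decide
      have hi := key i i' h2
      rcases hi with ⟨rfl, rfl⟩ | ⟨rfl, rfl⟩ <;> simp
    · intro b' hb'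
      rw [XI_cnt_pair c hab, XI_cnt_pair c hab]
      have ha0 : ∀ i : Fin 2, c a ≠ (b', i) := by
        intro i h
        apply hb'
        rw [h]
      have hb0 : ∀ i : Fin 2, c b ≠ (b', i) := by
        intro i h
        apply hb'
        rw [h1, h]
      rw [if_neg (ha0 0), if_neg (ha0 1), if_neg (hb0 0), if_neg (hb0 1), add_zero, Nat.sub_zero,
        Kab_self]

private theorem XI_side {r : ℕ} (i : Fin 2) (m : ℕ) :
    Kab (r - if i = 0 then m else 0) (r - if i = 1 then m else 0) = Kab (r - m) r := by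
  have hi : i = 0 ∨ i = 1 := by
    revert i; decide
  rcases hi with rfl | rfl
  · simp
  · simp [Kab_symm r (r - m)]

theorem mF_Y {q r : ℕ} {c : V → Fin q × Fin 2} (hc : Cells r c) {G : SimpleGraph V} {y : Sym2 V}
    (hy : y ∈ Ys G c) (j : ℕ) :
    mF (KG c) (ev y) j = (Kab (r - 1) r * Kab (r - 1) r * Lp r ^ (q - 2)).coeff j ∨
      mF (KG c) (ev y) j = (Kab (r - 2) r * Lp r ^ (q - 1)).coeff j := by
  classical
  have hyG : y ∈ G.edgeSet ∧ y ∉ (KG c).edgeSet := by
    unfold Ys at hy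
    exact (mem_filter.1 hy).2
  induction y using Sym2.ind with
  | _ a b =>
    rw [SimpleGraph.mem_edgeSet, SimpleGraph.mem_edgeSet] at hyG
    obtain ⟨hG, hK⟩ := hyG
    have hab : a ≠ b := hG.ne
    rcases hca : c a with ⟨β, i⟩
    rcases hcb : c b with ⟨β', i'⟩
    have hK' : ¬ (β = β' ∧ i ≠ i') := by
      intro h
      apply hK
      refine ⟨?_, ?_⟩
      · rw [hca, hcb]; exact h.1
      · rw [hca, hcb]; exact h.2
    have hcnt : ∀ (b' : Fin q) (i0 : Fin 2), cnt c (ev s(a, b)) (b', i0)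
        = (if β = b' ∧ i = i0 then 1 else 0) + (if β' = b' ∧ i' = i0 then 1 else 0) := by
      intro b' i0
      rw [XI_cnt_pair c hab, hca, hcb]
      simp only [Prod.mk.injEq]
    rw [mF_KG hc]
    by_cases hβ : β = β'
    · right
      subst hβ
      have hii : i = i' := by
        by_contra h
        exact hK' ⟨rfl, h⟩
      subst hii
      congr 1
      rw [XI_prod1 _ (Lp r) β]
      · congr 1
        rw [hcnt, hcnt]
        have := XI_side (r := r) i 2
        rw [← this]
        have e : ∀ i0 : Fin 2, ((if β = β ∧ i = i0 then 1 else 0)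
            + (if β = β ∧ i = i0 then 1 else 0) : ℕ) = if i = i0 then 2 else 0 := by
          intro i0
          by_cases h : i = i0 <;> simp [h]
        rw [e, e]
      · intro b' hb'
        rw [hcnt, hcnt]
        have hne : ¬ β = b' := fun h => hb' h.symm
        simp only [hne, false_and, if_false, add_zero, Nat.sub_zero, Kab_self]
    · left
      congr 1
      rw [XI_prod2 _ (Lp r) β β' hβ]
      · congr 2
        · rw [hcnt, hcnt]
          rw [← XI_side (r := r) i 1]
          have hne : ¬ β' = β := fun h => hβ h.symm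
          simp only [hne, false_and, if_false, add_zero, true_and]
        · rw [hcnt, hcnt]
          rw [← XI_side (r := r) i' 1]
          simp only [hβ, false_and, if_false, zero_add, true_and]
      · intro b' hb1 hb2
        rw [hcnt, hcnt]
        have hne1 : ¬ β = b' := fun h => hb1 h.symm
        have hne2 : ¬ β' = b' := fun h => hb2 h.symm
        simp only [hne1, hne2, false_and, if_false, add_zero, Nat.sub_zero, Kab_self]

private theorem XI_NN_HH (r q : ℕ) : NN (HP r * HP r * Lp r ^ (q - 2)) :=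
  NN_mul (NN_mul (HP_NN r) (HP_NN r)) (NN_pow (NN_Lp r) _)

private theorem XI_NN_der (r : ℕ) : NN (Lp r).derivative := by
  intro m
  rw [Polynomial.coeff_derivative]
  exact mul_nonneg (NN_Lp r _) (by positivity)

theorem first_order {q r k : ℕ} {c : V → Fin q × Fin 2} (hc : Cells r c) {G : SimpleGraph V}
    (hr : 1000 ≤ r) (hq : 2 ≤ q) (hk1 : 1 ≤ k) (hk : k ≤ q * r) (h6k : q * r ≤ 6 * k)
    {e y : Sym2 V} (he : e ∈ Xs G c) (hy : y ∈ Ys G c) :
    mF (KG c) (ev y) (k - 1) + T r q k / (94 * r * (1 + ((q : ℝ) * r - k) / q)) ≤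
      mF (KG c) (ev e) (k - 1) := by
  obtain ⟨k', rfl⟩ : ∃ k', k = k' + 1 := ⟨k - 1, by omega⟩
  rw [Nat.add_sub_cancel]
  have hq1 : 1 ≤ q := by omega
  set s2 := ((Lp r).derivative * Lp r ^ (q - 1)).coeff k' with hs2
  set sh := (HP r * Lp r ^ (q - 1)).coeff k' with hsh
  set s11 := (HP r * HP r * Lp r ^ (q - 2)).coeff k' with hs11
  have hs2n : 0 ≤ s2 := NN_mul (XI_NN_der r) (NN_pow (NN_Lp r) _) k'
  have hs11n : 0 ≤ s11 := XI_NN_HH r q k'
  have G4 := g4 (r := r) hq1 k'
  have G5 := g5 (r := r) hq1 k'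
  have G6 := g6 (r := r) hq k'
  have hnum := num_first (q := q) (r := r) (k := k' + 1) (S1 := T r q k') (sh := sh) (s2 := s2)
    (s11 := s11) (P := T r q (k' + 1)) hr hq hk1 hk h6k (T_nonneg r q k') hs2n hs11n
    (T_nonneg r q (k' + 1)) (by push_cast; exact G4)
    (by rw [hsh, G5]; push_cast; ring)
    (by rw [hs2, hs11, G6]; push_cast; ring)
    (g7 hq1 k') (g8 hq k') (g9 hq k')
  obtain ⟨n1, n2⟩ := hnum
  have hr0 : (0 : ℝ) < (r : ℝ) := by
    have : (1000 : ℝ) ≤ (r : ℝ) := by exact_mod_cast hr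
    linarith
  have hr1 : (0 : ℝ) < (r : ℝ) - 1 := by
    have : (1000 : ℝ) ≤ (r : ℝ) := by exact_mod_cast hr
    linarith
  have hX : mF (KG c) (ev e) k' = s2 / (r : ℝ) ^ 2 := by
    rw [mF_X hc he, eq_div_iff (by positivity), hs2, ← g1 (by omega : 1 ≤ r), mul_assoc,
      Polynomial.coeff_C_mul]
    ring
  rw [hX]
  have hμ : 0 ≤ ((q : ℝ) * r - ((k' + 1 : ℕ) : ℝ)) / q := by
    apply div_nonneg
    · have : (((k' + 1 : ℕ)) : ℝ) ≤ (q : ℝ) * r := by exact_mod_cast hk
      linarith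
    · positivity
  rcases mF_Y hc hy k' with h | h
  · have hY : mF (KG c) (ev y) k' = s11 / (r : ℝ) ^ 2 := by
      rw [h, eq_div_iff (by positivity), hs11, ← g2 (by omega : 1 ≤ r)]
      have e : Polynomial.C (r : ℝ) * Kab (r - 1) r * (Polynomial.C (r : ℝ) * Kab (r - 1) r)
          * Lp r ^ (q - 2) = Polynomial.C ((r : ℝ) ^ 2) *
            (Kab (r - 1) r * Kab (r - 1) r * Lp r ^ (q - 2)) := by
        rw [Polynomial.C_pow]; ring
      rw [e, Polynomial.coeff_C_mul]
      ring
    rw [hY]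
    have h3 : T r q (k' + 1) / (94 * r * (1 + ((q : ℝ) * r - ((k' + 1 : ℕ) : ℝ)) / q))
        ≤ T r q (k' + 1) / (73 * r * (1 + ((q : ℝ) * r - ((k' + 1 : ℕ) : ℝ)) / q)) := by
      apply div_le_div_of_nonneg_left (T_nonneg r q _)
      · apply mul_pos (by linarith) (by linarith)
      · have : (0 : ℝ) < (r : ℝ) * (1 + ((q : ℝ) * r - ((k' + 1 : ℕ) : ℝ)) / q) :=
          mul_pos hr0 (by linarith)
        nlinarith
    have h4 : (s2 - s11) / (r : ℝ) ^ 2 = s2 / (r : ℝ) ^ 2 - s11 / (r : ℝ) ^ 2 := by ring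
    rw [h4] at n1
    linarith
  · have hY : mF (KG c) (ev y) k' = (s2 - sh) / (r * ((r : ℝ) - 1)) := by
      rw [h, eq_div_iff (by positivity), hs2, hsh, ← Polynomial.coeff_sub, ← sub_mul,
        ← g3 (by omega : 2 ≤ r), mul_assoc, Polynomial.coeff_C_mul]
      ring
    rw [hY]
    linarith

theorem near {q r k : ℕ} {c : V → Fin q × Fin 2} (hc : Cells r c) {G : SimpleGraph V}
    (hreg : Reg G r) (hq : 2 ≤ q) (hk : k ≤ q * r) (h6k : q * r ≤ 6 * k)
    (hT : 1000 * (1 + ((q : ℝ) * r - k) / q) * ((Xs G c).card : ℝ) ≤ r) :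
    ((mats G k).card : ℝ) ≤ T r q k := by
  classical
  have hXY := card_XY hc hreg
  by_cases hX0 : (Xs G c).card = 0
  · have hY0 : (Ys G c).card = 0 := by omega
    rw [Finset.card_eq_zero] at hX0 hY0
    have hG : G = KG c := by
      ext u v
      constructor
      · intro h
        by_contra hcon
        have : s(u, v) ∈ Ys G c := by
          unfold Ys
          exact mem_filter.2 ⟨mem_univ _, (SimpleGraph.mem_edgeSet G).2 h,
            fun h2 => hcon ((SimpleGraph.mem_edgeSet (KG c)).1 h2)⟩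
        rw [hY0] at this
        exact absurd this (notMem_empty _)
      · intro h
        by_contra hcon
        have : s(u, v) ∈ Xs G c := by
          unfold Xs
          exact mem_filter.2 ⟨mem_univ _, (SimpleGraph.mem_edgeSet (KG c)).2 h,
            fun h2 => hcon ((SimpleGraph.mem_edgeSet G).1 h2)⟩
        rw [hX0] at this
        exact absurd this (notMem_empty _)
    rw [hG, KG_card hc]
  · have hX1 : 1 ≤ (Xs G c).card := by omega
    have hX1' : (1 : ℝ) ≤ ((Xs G c).card : ℝ) := by exact_mod_cast hX1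
    set t : ℝ := ((Xs G c).card : ℝ) with ht
    have hq0 : (0 : ℝ) < (q : ℝ) := by
      have : 0 < q := by omega
      exact_mod_cast this
    have hμ : 0 ≤ ((q : ℝ) * r - k) / q := by
      apply div_nonneg _ hq0.le
      have : (k : ℝ) ≤ (q : ℝ) * r := by exact_mod_cast hk
      linarith
    set μ : ℝ := ((q : ℝ) * r - k) / q with hμdef
    have hr1000' : (1000 : ℝ) ≤ (r : ℝ) := by
      have : (1 : ℝ) ≤ (1 + μ) * t := by nlinarith
      nlinarith
    have hr1000 : 1000 ≤ r := by exact_mod_cast hr1000'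
    have hk2 : 2 ≤ k := by
      have : 2 * 1000 ≤ q * r := Nat.mul_le_mul hq hr1000
      omega
    obtain ⟨k2, rfl⟩ : ∃ k2, k = k2 + 2 := ⟨k - 2, by omega⟩
    have hr0 : (0 : ℝ) < (r : ℝ) := by linarith
    have hP := T_nonneg r q (k2 + 2)
    set P : ℝ := T r q (k2 + 2) with hPdef
    have hTY : 1000 * ((Ys G c).card : ℝ) ≤ r := by
      rw [← hXY, ← ht]
      nlinarith
    have hub := union_bound hc hreg (k := k2) (B := 9.04 / (r : ℝ) ^ 2 * P) (by positivity)
      (fun W hW => mF_H_le hc (by omega) (by omega : 2 ≤ k2 + 2) hTY hW)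
    rw [KG_card hc, ← hPdef, ← ht] at hub
    obtain ⟨e0, he0⟩ := Finset.card_pos.1 (by omega : 0 < (Xs G c).card)
    have hsX : ∑ e ∈ Xs G c, mF (KG c) (ev e) (k2 + 1) = t * mF (KG c) (ev e0) (k2 + 1) := by
      rw [Finset.sum_congr rfl (fun e he => (mF_X hc he (k2 + 1)).trans
        (mF_X hc he0 (k2 + 1)).symm), Finset.sum_const, nsmul_eq_mul]
    have hsY : ∑ y ∈ Ys G c, mF (KG c) (ev y) (k2 + 1) ≤
        t * (mF (KG c) (ev e0) (k2 + 1) - P / (94 * r * (1 + μ))) := by
      rw [ht, hXY, ← nsmul_eq_mul, ← Finset.sum_const]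
      refine Finset.sum_le_sum (fun y hy => ?_)
      have := first_order hc hr1000 hq (by omega : 1 ≤ k2 + 2) hk h6k he0 hy
      rw [show k2 + 2 - 1 = k2 + 1 from by omega, ← hμdef, ← hPdef] at this
      linarith
    rw [hsX] at hub
    have hfin : t ^ 2 * (9.04 / (r : ℝ) ^ 2 * P) ≤ t * (P / (94 * r * (1 + μ))) := by
      have h1 : 0 < 94 * (r : ℝ) * (1 + μ) := by positivity
      have e1 : t ^ 2 * (9.04 / (r : ℝ) ^ 2 * P) = (t * P) * (9.04 * t / (r : ℝ) ^ 2) := by ring
      have e2 : t * (P / (94 * r * (1 + μ))) = (t * P) * (1 / (94 * r * (1 + μ))) := by ring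
      rw [e1, e2]
      apply mul_le_mul_of_nonneg_left _ (by positivity)
      rw [div_le_div_iff₀ (by positivity) h1]
      have h2 : 849.76 * ((1 + μ) * t) ≤ r := by
        have : 0 ≤ (1 + μ) * t := by positivity
        nlinarith
      have h3 : 9.04 * t * (94 * r * (1 + μ)) = (849.76 * ((1 + μ) * t)) * r := by ring
      rw [h3, one_mul, pow_two]
      exact mul_le_mul_of_nonneg_right h2 hr0.le
    linarith

end

end Pool.Agent.Lib.MP_eeed5c_coX
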